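import Pool.Agent.W5h1.PB.Windows
import Pool.Agent.W5h1.PB.AsmF

set_option autoImplicit false
set_option maxHeartbeats 4000000

/-! # Families of linear forms: the engine (after `Pool.Agent.H361R2.PA.engine`) -/

namespace Pool.Agent.W5h1.PB

open Finset Filter Pool.Agent.H318R2.Cr Pool.Agent.H361R2.PA

open scoped Classical

/-- pigeonhole: one class modulo `p` makes a proportion `1/p` of the forms divisible by `p` -/
theorem one_classF (p : ℕ) (hp : p.Prime) (A : Finset (ℤ × ℤ)) (hA : ∀ x ∈ A, ¬ (p : ℤ) ∣ x.1) :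
    ∃ c : ℕ, ((A.filter (fun x => ¬ (p : ℤ) ∣ x.1 * (c : ℤ) + x.2)).card : ℝ) ≤
      A.card * (1 - 1 / (p : ℝ)) := by
  have hp0 : (0 : ℝ) < p := by exact_mod_cast hp.pos
  have hp' : (0 : ℤ) < p := by exact_mod_cast hp.pos
  have hinv : ∀ x : ℤ × ℤ, ∃ i : ℤ, x ∈ A → (p : ℤ) ∣ x.1 * i - 1 := by
    intro x
    by_cases h : x ∈ A
    · obtain ⟨i, hi⟩ := inv_int hp x.1 (hA x h)
      exact ⟨i, fun _ => hi⟩
    · exact ⟨0, fun h' => absurd h' h⟩
  choose iv hiv using hinv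
  obtain ⟨c, _, hc⟩ := Finset.exists_le_card_fiber_of_nsmul_le_card_of_maps_to
    (s := A) (t := range p) (f := fun x => ((-x.2 * iv x) % (p : ℤ)).toNat) (b := (A.card : ℝ) / p)
    (by
      intro a _
      rw [mem_range]
      have h1 := Int.emod_lt_of_pos (-a.2 * iv a) hp'
      have h2 := Int.emod_nonneg (-a.2 * iv a) hp'.ne'
      omega)
    ⟨0, mem_range.2 hp.pos⟩
    (by
      rw [card_range, nsmul_eq_mul]
      rw [mul_div_cancel₀ _ hp0.ne'])
  refine ⟨c, ?_⟩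
  have h1 : (A.filter (fun x => ((-x.2 * iv x) % (p : ℤ)).toNat = c)) ⊆
      A.filter (fun x => (p : ℤ) ∣ x.1 * (c : ℤ) + x.2) := by
    intro x hx
    rw [mem_filter] at hx ⊢
    refine ⟨hx.1, ?_⟩
    have h2 := Int.emod_nonneg (-x.2 * iv x) hp'.ne'
    have h3 : ((-x.2 * iv x) % (p : ℤ)) = c := by
      have := hx.2
      omega
    have h4 := Int.emod_add_mul_ediv (-x.2 * iv x) (p : ℤ)
    rw [h3] at h4
    have h5 := hiv x hx.1
    obtain ⟨w, hw⟩ := h5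
    refine ⟨-x.2 * w - x.1 * ((-x.2 * iv x) / (p : ℤ)), ?_⟩
    linear_combination x.1 * h4 - x.2 * hw
  have h2 := card_le_card h1
  have h3 := card_filter_add_card_filter_not (s := A) (fun x => (p : ℤ) ∣ x.1 * (c : ℤ) + x.2)
  have h4 : ((A.filter (fun x => (p : ℤ) ∣ x.1 * (c : ℤ) + x.2)).card : ℝ) +
      ((A.filter (fun x => ¬ (p : ℤ) ∣ x.1 * (c : ℤ) + x.2)).card : ℝ) = A.card := by exact_mod_cast h3
  have h5 : ((A.filter (fun x => ((-x.2 * iv x) % (p : ℤ)).toNat = c)).card : ℝ) ≤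
      ((A.filter (fun x => (p : ℤ) ∣ x.1 * (c : ℤ) + x.2)).card : ℝ) := by exact_mod_cast h2
  have h6 : (A.card : ℝ) * (1 - 1 / (p : ℝ)) = A.card - A.card / p := by ring
  rw [h6]
  linarith

/-- classes modulo the primes of `S`, arbitrary set of forms -/
theorem presieveF (S : Finset ℕ) (hS : ∀ p ∈ S, p.Prime) : ∀ A : Finset (ℤ × ℤ),
    (∀ p ∈ S, ∀ x ∈ A, ¬ (p : ℤ) ∣ x.1) → ∃ b : ℕ → ℕ,
    ((A.filter (fun x => ∀ p ∈ S, ¬ (p : ℤ) ∣ x.1 * (b p : ℤ) + x.2)).card : ℝ) ≤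
      A.card * ∏ p ∈ S, (1 - 1 / (p : ℝ)) := by
  induction S using Finset.induction_on with
  | empty => intro A _; exact ⟨fun _ => 0, by simp⟩
  | insert p S hpS ih =>
    intro A hA
    have hp := hS p (mem_insert_self _ _)
    obtain ⟨c, hc⟩ := one_classF p hp A (hA p (mem_insert_self _ _))
    obtain ⟨b, hb⟩ := ih (fun q hq => hS q (mem_insert_of_mem hq))
      (A.filter (fun x => ¬ (p : ℤ) ∣ x.1 * (c : ℤ) + x.2))
      (fun q hq x hx => hA q (mem_insert_of_mem hq) x (mem_filter.1 hx).1)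
    refine ⟨Function.update b p c, ?_⟩
    have h8 : A.filter (fun x => ∀ q ∈ insert p S, ¬ (q : ℤ) ∣ x.1 * (Function.update b p c q : ℤ) + x.2) ⊆
        (A.filter (fun x => ¬ (p : ℤ) ∣ x.1 * (c : ℤ) + x.2)).filter
          (fun x => ∀ q ∈ S, ¬ (q : ℤ) ∣ x.1 * (b q : ℤ) + x.2) := by
      intro x hx
      rw [mem_filter] at hx
      rw [mem_filter, mem_filter]
      refine ⟨⟨hx.1, ?_⟩, ?_⟩
      · have := hx.2 p (mem_insert_self _ _)
        rwa [Function.update_self] at this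
      · intro q hq
        have h9 : q ≠ p := fun h => hpS (h ▸ hq)
        have := hx.2 q (mem_insert_of_mem hq)
        rwa [Function.update_of_ne h9] at this
    have h0 : 0 ≤ ∏ q ∈ S, (1 - 1 / (q : ℝ)) := prod_nonneg fun q hq => by
      have hq1 : (1 : ℝ) ≤ q := by exact_mod_cast (hS q (mem_insert_of_mem hq)).one_lt.le
      have : 1 / (q : ℝ) ≤ 1 := by
        rw [div_le_one (by linarith)]
        exact hq1
      linarith
    rw [prod_insert hpS]
    have h9 : ((A.filter (fun x => ∀ q ∈ insert p S,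
        ¬ (q : ℤ) ∣ x.1 * (Function.update b p c q : ℤ) + x.2)).card : ℝ) ≤
        (((A.filter (fun x => ¬ (p : ℤ) ∣ x.1 * (c : ℤ) + x.2)).filter
          (fun x => ∀ q ∈ S, ¬ (q : ℤ) ∣ x.1 * (b q : ℤ) + x.2)).card : ℝ) := by
      exact_mod_cast card_le_card h8
    refine h9.trans (hb.trans ?_)
    calc ((A.filter (fun x => ¬ (p : ℤ) ∣ x.1 * (c : ℤ) + x.2)).card : ℝ) * ∏ q ∈ S, (1 - 1 / (q : ℝ))
        ≤ (A.card * (1 - 1 / (p : ℝ))) * ∏ q ∈ S, (1 - 1 / (q : ℝ)) := by gcongr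
      _ = _ := by ring

/-- the engine for families of linear forms -/
theorem engineF (D Q : ℕ) (hQ : 0 < Q) : ∃ c : ℝ, 0 < c ∧ ∃ X₀ : ℝ, ∀ X : ℝ, X₀ ≤ X →
    ∀ A : Finset (ℤ × ℤ), (A.card : ℝ) ≤ (Real.log X) ^ 2 →
    (∀ x ∈ A, x.1 ∣ (Q : ℤ) ∧ |(x.2 : ℝ)| ≤ Real.exp ((Real.log X) ^ (D + 1))) →
    (((A.filter (fun x => ∀ p : ℕ, p.Prime → (p : ℝ) ≤ Real.log X / 10 →
      WW (Real.log X / 10) < Real.log p → ¬ (p : ℤ) ∣ x.2)).card : ℕ) : ℝ) ≤
      c * (Real.log X * (Real.log (Real.log X) * Real.log (Real.log (Real.log (Real.log X))) /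
        Real.log (Real.log (Real.log X)))) →
    ∀ z : ℤ, ∃ n : ℤ, (z : ℝ) + X / 4 < n ∧ (n : ℝ) ≤ z + X ∧ ∀ x ∈ A, ¬ Prime (x.1 * n + x.2) := by
  obtain ⟨c₀, hc₀, X₁, hass⟩ := assembleF (D + 1)
  obtain ⟨c₂, hc₂, X₂, hfacts⟩ := facts (10 * Q + 1)
  refine ⟨c₀ / (2 ^ Q * c₂), by positivity, max X₁ X₂, ?_⟩
  intro X hX A hA hAb hA0 z
  have hX1 : X₁ ≤ X := (le_max_left _ _).trans hX
  obtain ⟨hX0, g1, g2, g3, g4, g5, g6, g7, g8, g9, g10, g11, g12, g13, g14⟩ :=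
    hfacts X ((le_max_right _ _).trans hX)
  set L1 := Real.log X with hL1
  set u₂ := Real.log L1 with hu₂
  set u₃ := Real.log u₂ with hu₃
  set u₄ := Real.log u₃ with hu₄
  set y := L1 / 10 with hy
  have hy0 : 0 < y := by rw [hy]; linarith
  have hu₃0 : 0 < u₃ := by linarith
  have hu₂0 : 0 < u₂ := by linarith
  have hu₄0 : 0 < u₄ := by linarith
  have hQr : (0 : ℝ) ≤ Q := Nat.cast_nonneg _
  set v : ℕ := ⌊Real.exp (WW y)⌋₊ with hv
  have hvle : (v : ℝ) ≤ Real.exp (WW y) := Nat.floor_le (Real.exp_pos _).le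
  set A0 := A.filter (fun x => ∀ p : ℕ, p.Prime → (p : ℝ) ≤ y →
      WW y < Real.log p → ¬ (p : ℤ) ∣ x.2) with hA0def
  obtain ⟨b, hb⟩ := presieveF ((Pz v).filter (fun p => ¬ p ∣ Q))
    (fun p hp => (mem_Pz.1 (mem_filter.1 hp).1).1) A0 (by
      intro p hp x hx hpx
      apply (mem_filter.1 hp).2
      have h1 := hpx.trans (hAb x (mem_filter.1 hx).1).1
      exact_mod_cast h1)
  have hprod := prod_any Q v hQ
  set b' : ℕ → ℕ := fun p => if p ∣ Q then 0 else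
    if Real.log p ≤ WW y then b p else 0 with hb'
  have hS : (((A.filter (fun x => ∀ p : ℕ, p.Prime → (p : ℝ) ≤ L1 / 10 →
      ¬ (p : ℤ) ∣ x.1 * (b' p : ℤ) + x.2)).card : ℕ) : ℝ) ≤ c₀ * L1 := by
    have h1 : (A.filter (fun x => ∀ p : ℕ, p.Prime → (p : ℝ) ≤ L1 / 10 →
        ¬ (p : ℤ) ∣ x.1 * (b' p : ℤ) + x.2)) ⊆
        A0.filter (fun x => ∀ p ∈ (Pz v).filter (fun p => ¬ p ∣ Q),
          ¬ (p : ℤ) ∣ x.1 * (b p : ℤ) + x.2) := by
      intro a ha
      rw [mem_filter] at ha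
      obtain ⟨haA, hsur⟩ := ha
      rw [mem_filter, hA0def, mem_filter]
      refine ⟨⟨haA, ?_⟩, ?_⟩
      · intro p hp hpy hpW hpa
        apply hsur p hp hpy
        have hpQ : ¬ p ∣ Q := by
          intro hd
          have h2 := Nat.le_of_dvd hQ hd
          have hp0 : (0 : ℝ) < p := by exact_mod_cast hp.pos
          have h3 : Real.log p ≤ Q := by
            have h4 := Real.log_le_sub_one_of_pos hp0
            have h5 : (p : ℝ) ≤ Q := by exact_mod_cast h2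
            linarith
          linarith
        have h4 : b' p = 0 := by
          rw [hb']
          simp only [hpQ, if_false, not_le.2 hpW]
        rw [h4]
        simpa using hpa
      · intro p hp
        rw [mem_filter, mem_Pz] at hp
        obtain ⟨⟨hpp, hpv⟩, hpQ⟩ := hp
        have hp0 : (0 : ℝ) < p := by exact_mod_cast hpp.pos
        have h2 : (p : ℝ) ≤ Real.exp (WW y) := le_trans (by exact_mod_cast hpv) hvle
        have h3 : Real.log p ≤ WW y := by rwa [Real.log_le_iff_le_exp hp0]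
        have h4 : (p : ℝ) ≤ y := by
          refine h2.trans ?_
          calc Real.exp (WW y) ≤ Real.exp (Real.log y) := Real.exp_le_exp.2 g10
            _ = y := Real.exp_log hy0
        have h5 := hsur p hpp h4
        have h6 : b' p = b p := by
          rw [hb']
          simp only [hpQ, if_false, h3, if_true]
        rwa [h6] at h5
    have h2 : (((A.filter (fun x => ∀ p : ℕ, p.Prime → (p : ℝ) ≤ L1 / 10 →
        ¬ (p : ℤ) ∣ x.1 * (b' p : ℤ) + x.2)).card : ℕ) : ℝ) ≤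
        ((A0.filter (fun x => ∀ p ∈ (Pz v).filter (fun p => ¬ p ∣ Q),
          ¬ (p : ℤ) ∣ x.1 * (b p : ℤ) + x.2)).card : ℝ) := by
      exact_mod_cast card_le_card h1
    refine h2.trans (hb.trans ?_)
    have hVp := (V_pos v).le
    calc (A0.card : ℝ) * ∏ p ∈ (Pz v).filter (fun p => ¬ p ∣ Q), (1 - 1 / (p : ℝ))
        ≤ A0.card * (2 ^ Q * V v) := by gcongr
      _ ≤ (c₀ / (2 ^ Q * c₂) * (L1 * (u₂ * u₄ / u₃))) * (2 ^ Q * (c₂ * u₃ / (u₂ * u₄))) := by
          gcongr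
      _ = c₀ * L1 := by field_simp
  have hAb' : ∀ x ∈ A, x.1 ≠ 0 ∧ |(x.1 : ℝ)| ≤ Real.exp (L1 ^ (D + 1)) ∧
      |(x.2 : ℝ)| ≤ Real.exp (L1 ^ (D + 1)) := by
    intro x hx
    obtain ⟨h1, h2⟩ := hAb x hx
    have hQz : (Q : ℤ) ≠ 0 := by exact_mod_cast hQ.ne'
    refine ⟨fun h => hQz (by rw [h] at h1; exact zero_dvd_iff.1 h1), ?_, h2⟩
    have h3 : x.1.natAbs ≤ Q := Nat.le_of_dvd hQ (by
      have := Int.natAbs_dvd_natAbs.2 h1
      simpa using this)
    have h4 : |(x.1 : ℝ)| ≤ Q := by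
      have h5 : ((x.1.natAbs : ℕ) : ℝ) = |(x.1 : ℝ)| := by
        rw [Nat.cast_natAbs]
        push_cast
        rfl
      rw [← h5]
      exact_mod_cast h3
    have h5 : (Q : ℝ) ≤ L1 := by linarith
    have h6 : L1 ≤ L1 ^ (D + 1) := by
      calc L1 = L1 ^ 1 := (pow_one _).symm
        _ ≤ L1 ^ (D + 1) := pow_le_pow_right₀ (by linarith) (by omega)
    have h7 := Real.add_one_le_exp (L1 ^ (D + 1))
    linarith
  obtain ⟨n, hn1, hn2, hn3, hn4⟩ := hass X hX1 A hA hAb' b' hS z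
  exact ⟨n, hn1, hn2, hn4⟩

/-- the central window -/
theorem central (c' : ℝ) (hc'0 : 0 < c') (hc'1 : c' ≤ 1 / 10) : ∃ X₀ : ℝ, ∀ X : ℝ, X₀ ≤ X →
    ∀ L : ℕ, L = ⌊c' * FF 1 X⌋₊ →
    0 ≤ c' * FF 1 X ∧
    2 * (L : ℝ) + 1 ≤ Real.log X * Real.log (Real.log X) ^ 2 ∧
    (((Icc (-(L : ℤ)) (L : ℤ)).filter (fun a => ∀ p : ℕ, p.Prime → (p : ℝ) ≤ Real.log X / 10 →
      WW (Real.log X / 10) < Real.log p → ¬ (p : ℤ) ∣ a)).card : ℝ) ≤
      242 * c' * (Real.log X * (Real.log (Real.log X) * Real.log (Real.log (Real.log (Real.log X))) /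
        Real.log (Real.log (Real.log X)))) := by
  obtain ⟨y₀, hmed⟩ := card_med
  obtain ⟨c₂, hc₂, X₂, hfacts⟩ := facts (2 / c' + 10 * |y₀|)
  refine ⟨X₂, ?_⟩
  intro X hX L' hL'
  obtain ⟨hX0, g1, g2, g3, g4, g5, g6, g7, g8, g9, g10, g11, g12, g13, g14⟩ :=
    hfacts X hX
  set L1 := Real.log X with hL1
  set u₂ := Real.log L1 with hu₂
  set u₃ := Real.log u₂ with hu₃
  set u₄ := Real.log u₃ with hu₄
  set y := L1 / 10 with hy
  have hy0 : 0 < y := by rw [hy]; linarith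
  have hu₃0 : 0 < u₃ := by linarith
  have hu₂0 : 0 < u₂ := by linarith
  have hu₄0 : 0 < u₄ := by linarith
  set F := c' * FF 1 X with hF
  have hFF : FF 1 X = L1 * (u₂ * u₄ / u₃) * (u₂ / u₃) := by
    unfold FF
    rw [← hL1, ← hu₂, ← hu₃, ← hu₄]
    field_simp
    ring
  have hyab : 0 ≤ |y₀| := abs_nonneg _
  have h2c : 0 < 2 / c' := by positivity
  have hr1 : 2 / c' ≤ u₂ / u₃ := by
    rw [le_div_iff₀ hu₃0]
    have h1 : 2 / c' * u₃ ≤ (2 / c' + 10 * |y₀|) * u₃ := by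
      apply mul_le_mul_of_nonneg_right _ hu₃0.le
      linarith
    linarith
  have hr2 : 1 ≤ u₂ * u₄ / u₃ := by
    rw [le_div_iff₀ hu₃0]
    nlinarith
  have hF0 : 0 ≤ F := by rw [hF, hFF]; positivity
  rw [hL']
  set L : ℕ := ⌊F⌋₊ with hLdef
  have hLF : (L : ℝ) ≤ F := Nat.floor_le hF0
  have hFlow : 2 * L1 ≤ F := by
    rw [hF, hFF]
    calc 2 * L1 = c' * (L1 * 1 * (2 / c')) := by field_simp
      _ ≤ c' * (L1 * (u₂ * u₄ / u₃) * (u₂ / u₃)) := by gcongr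
  have hyL : y ≤ L := by
    have h2 : F < L + 1 := Nat.lt_floor_add_one _
    rw [hy]
    linarith
  have hF2 : F ≤ L1 * u₂ ^ 2 / 10 := by
    rw [hF, hFF]
    have h1 : u₂ * u₄ / u₃ ≤ u₂ := by
      rw [div_le_iff₀ hu₃0]
      gcongr
    have h2 : u₂ / u₃ ≤ u₂ := div_le_self hu₂0.le (by linarith)
    calc c' * (L1 * (u₂ * u₄ / u₃) * (u₂ / u₃)) ≤ 1 / 10 * (L1 * u₂ * u₂) := by gcongr
      _ = _ := by ring
  have hLy : (L : ℝ) ≤ y * (Real.log y) ^ 4 := by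
    refine hLF.trans (hF2.trans ?_)
    have h1 : (u₂ / 2) ^ 4 ≤ (Real.log y) ^ 4 := by gcongr
    have h2 : u₂ ^ 2 ≤ (u₂ / 2) ^ 4 := by
      have : 0 ≤ u₂ ^ 2 := by positivity
      have e : (u₂ / 2) ^ 4 = u₂ ^ 2 * u₂ ^ 2 / 16 := by ring
      rw [e]
      nlinarith
    have h3 : L1 = 10 * y := by rw [hy]; ring
    calc L1 * u₂ ^ 2 / 10 = y * (u₂ ^ 2) := by rw [h3]; ring
      _ ≤ y * (Real.log y) ^ 4 := by gcongr; linarith
  have hyy : y₀ ≤ y := by
    have := le_abs_self y₀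
    rw [hy]
    have h3 : 2 / c' + 10 * |y₀| ≤ L1 / 10 := g7
    linarith
  have hcm := hmed y hyy L hyL hLy
  have hcard : ((NM y L).card : ℝ) ≤ 120 * c' * (L1 * (u₂ * u₄ / u₃)) := by
    refine hcm.trans ?_
    have h1 : 60 * (L : ℝ) * Real.log (Real.log y) / Real.log y ≤ 60 * F * u₃ / (u₂ / 2) := by
      apply div_le_div₀ (by positivity) _ (by positivity) g11
      gcongr
    refine h1.trans (le_of_eq ?_)
    rw [hF, hFF]
    field_simp
    ring
  refine ⟨hF0, ?_, ?_⟩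
  · have h1 : 1 ≤ L1 * u₂ ^ 2 := by nlinarith
    linarith
  · have h1 : ((Icc (-(L : ℤ)) (L : ℤ)).filter (fun a => ∀ p : ℕ, p.Prime → (p : ℝ) ≤ y →
        WW y < Real.log p → ¬ (p : ℤ) ∣ a)) ⊆
        (((NM y L).image (fun m : ℕ => (m : ℤ))) ∪ ((NM y L).image (fun m : ℕ => -(m : ℤ)))) ∪
          {0} := by
      intro a ha
      rw [mem_filter, mem_Icc] at ha
      obtain ⟨ha1, ha2⟩ := ha
      rw [mem_union, mem_union, mem_image, mem_image, mem_singleton]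
      by_cases h0 : a = 0
      · right; exact h0
      · left
        have hN : a.natAbs ∈ NM y L := by
          rw [NM, mem_filter, mem_Icc]
          refine ⟨⟨by omega, by omega⟩, fun p hp hpa => ?_⟩
          by_contra hcon
          push Not at hcon
          exact ha2 p hp hcon.1 hcon.2 (Int.natCast_dvd.2 hpa)
        rcases le_total 0 a with h | h
        · left; exact ⟨a.natAbs, hN, by omega⟩
        · right; exact ⟨a.natAbs, hN, by omega⟩
    have h2 : ((Icc (-(L : ℤ)) (L : ℤ)).filter (fun a => ∀ p : ℕ, p.Prime → (p : ℝ) ≤ y →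
        WW y < Real.log p → ¬ (p : ℤ) ∣ a)).card ≤
        ((NM y L).card + (NM y L).card) + 1 := by
      refine (card_le_card h1).trans ((card_union_le _ _).trans ?_)
      have e1 := card_union_le ((NM y L).image (fun m : ℕ => (m : ℤ)))
        ((NM y L).image (fun m : ℕ => -(m : ℤ)))
      have e2 : ((NM y L).image (fun m : ℕ => (m : ℤ))).card ≤ (NM y L).card := card_image_le
      have e3 : ((NM y L).image (fun m : ℕ => -(m : ℤ))).card ≤ (NM y L).card := card_image_le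
      rw [card_singleton]
      omega
    have h3 : (((Icc (-(L : ℤ)) (L : ℤ)).filter (fun a => ∀ p : ℕ, p.Prime → (p : ℝ) ≤ y →
        WW y < Real.log p → ¬ (p : ℤ) ∣ a)).card : ℝ) ≤
        ((NM y L).card + (NM y L).card) + 1 := by exact_mod_cast h2
    have h4 : 1 ≤ c' * (L1 * (u₂ * u₄ / u₃)) := by
      have h5 : 2 / c' + 10 * |y₀| ≤ L1 / 10 := g7
      have h6 : 2 / c' ≤ L1 := by linarith
      have h7 : 2 / c' * 1 ≤ L1 * (u₂ * u₄ / u₃) := by
        apply mul_le_mul h6 hr2 (by norm_num) (by linarith)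
      calc (1 : ℝ) ≤ c' * (2 / c' * 1) := by field_simp; norm_num
        _ ≤ _ := by gcongr
    linarith

end Pool.Agent.W5h1.PB
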