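import Pool.Agent.W5h1.PB.Forms

set_option autoImplicit false
set_option maxHeartbeats 4000000

/-! # Prime-free neighbourhoods: final form -/

namespace Pool.Agent.W5h1.PB

open Finset Filter Pool.Agent.H318R2.Cr Pool.Agent.H361R2.PA

open scoped Classical

/-- the record scale -/
noncomputable def f (x : ℝ) : ℝ :=
  Real.log x * (Real.log (Real.log x)) ^ 2 * Real.log (Real.log (Real.log (Real.log x))) /
    (Real.log (Real.log (Real.log x))) ^ 2

/-- no prime is at distance at most `d` from `x` -/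
def PrimeFree (x d : ℝ) : Prop := ∀ q : ℕ, q.Prime → d < |(q : ℝ) - x|

theorem FF_eq (X : ℝ) : FF 1 X = f X := by
  unfold FF f
  norm_num

theorem primeFree_of {n : ℤ} {d : ℝ} (h : ∀ j : ℤ, |(j : ℝ)| ≤ d → ¬ Prime (n + j)) :
    PrimeFree (n : ℝ) d := by
  intro q hq
  by_contra hcon
  push Not at hcon
  have h1 := h ((q : ℤ) - n) (by push_cast; exact hcon)
  have h2 : n + ((q : ℤ) - n) = q := by ring
  rw [h2] at h1
  exact h1 (Nat.prime_iff_prime_int.1 hq)

theorem forms_main (D A : ℕ) (δ : ℝ) (hδ : 0 < δ) : ∃ c : ℝ, 0 < c ∧ ∃ X₀ : ℝ, ∀ X : ℝ, X₀ ≤ X →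
    ∀ (T : Finset (ℤ × ℤ)) (U : ℝ), (Real.log X) ^ δ ≤ U →
    (T.card : ℝ) * U ≤ c * (Real.log X * Real.log (Real.log X)) →
    (∀ x ∈ T, x.1 ≠ 0 ∧ |x.1| ≤ A ∧ |(x.2 : ℝ)| ≤ Real.exp ((Real.log X) ^ D)) →
    ∀ M : ℝ, ∃ n : ℤ, M < n ∧ (n : ℝ) ≤ M + X ∧
      (∀ α : ℤ, α ≠ 0 → |α| ≤ A → PrimeFree (α * n) (c * f X)) ∧
      ∀ x ∈ T, PrimeFree (x.1 * n + x.2) U := by
  obtain ⟨c, hc, X₁, h⟩ := forms_windows D A δ hδ
  obtain ⟨c₂, hc₂, X₂, hfacts⟩ := facts 10
  refine ⟨min c (c / 4), by positivity, max 4 (max X₁ X₂), ?_⟩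
  intro X hX T U hU hTU hT M
  have hX4 : 4 ≤ X := (le_max_left _ _).trans hX
  have hX' := (le_max_right _ _).trans hX
  have hX1 : X₁ ≤ X := (le_max_left _ _).trans hX'
  have hX2 : X₂ ≤ X := (le_max_right _ _).trans hX'
  obtain ⟨hX0, g1, g2, g3, g4, g5, g6, g7, g8, g9, g10, g11, g12, g13, g14⟩ := hfacts X hX2
  have hL10 : 0 < Real.log X := by linarith
  have hU1 : 1 ≤ U := le_trans (Real.one_le_rpow (by linarith) hδ.le) hU
  have hLL : 0 < Real.log X * Real.log (Real.log X) := mul_pos hL10 (by linarith)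
  set U' : ℕ := ⌈U⌉₊ with hU'
  have hUU' : U ≤ U' := Nat.le_ceil U
  have hU'2 : (U' : ℝ) ≤ 2 * U := by
    have : (U' : ℝ) < U + 1 := Nat.ceil_lt_add_one (by linarith)
    linarith
  have hTU' : (T.card : ℝ) * U' ≤ c * (Real.log X * Real.log (Real.log X)) := by
    calc (T.card : ℝ) * U' ≤ T.card * (2 * U) := by gcongr
      _ = 2 * (T.card * U) := by ring
      _ ≤ 2 * (min c (c / 4) * (Real.log X * Real.log (Real.log X))) := by gcongr
      _ ≤ 2 * (c / 4 * (Real.log X * Real.log (Real.log X))) := by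
          gcongr
          exact min_le_right _ _
      _ ≤ c * (Real.log X * Real.log (Real.log X)) := by nlinarith
  obtain ⟨n, hn1, hn2, hn4, hn5⟩ := h X hX1 T U' (hU.trans hUU') hTU' hT ⌊M⌋
  have hf0 : 0 ≤ f X := by
    rw [← FF_eq]
    unfold FF
    have : 0 < Real.log (Real.log X) := by linarith
    have : 0 < Real.log (Real.log (Real.log X)) := by linarith
    have : 0 < Real.log (Real.log (Real.log (Real.log X))) := by linarith
    positivity
  refine ⟨n, ?_, ?_, ?_, ?_⟩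
  · have := Int.lt_floor_add_one M
    linarith
  · have := Int.floor_le M
    linarith
  · intro α hα0 hα
    have h1 : PrimeFree ((α * n : ℤ) : ℝ) (min c (c / 4) * f X) := by
      apply primeFree_of
      intro j hj
      apply hn4 α hα0 hα j
      rw [FF_eq]
      refine hj.trans ?_
      gcongr
      exact min_le_left _ _
    push_cast at h1
    exact h1
  · intro x hx
    have h1 : PrimeFree ((x.1 * n + x.2 : ℤ) : ℝ) U := by
      apply primeFree_of
      intro j hj
      exact hn5 x hx j (hj.trans hUU')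
    push_cast at h1
    exact h1

theorem sums_main (ε : ℝ) (hε : 0 < ε) (hε1 : ε ≤ 1) : ∃ c : ℝ, 0 < c ∧ ∃ N₀ : ℕ, ∀ N : ℕ, N₀ ≤ N →
    ∀ M : ℝ, 0 ≤ M → M + (N : ℝ) ^ ε ≤ N → ∃ n₁ n₂ : ℕ, n₁ + n₂ = N ∧ M < n₁ ∧
      (n₁ : ℝ) ≤ M + (N : ℝ) ^ ε ∧ PrimeFree n₁ (c * f N) ∧
      PrimeFree n₂ (c * (Real.log N * Real.log (Real.log N))) := by
  obtain ⟨c, hc, X₀, h⟩ := forms_main 2 1 (1 / 2) (by norm_num)
  refine ⟨c * (ε / 8), by positivity, ?_⟩
  -- growth conditions
  have t1 : Tendsto (fun N : ℕ => Real.log (N : ℝ)) atTop atTop :=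
    Real.tendsto_log_atTop.comp tendsto_natCast_atTop_atTop
  have t2 : Tendsto (fun N : ℕ => Real.log (Real.log (N : ℝ))) atTop atTop :=
    Real.tendsto_log_atTop.comp t1
  have t3 : Tendsto (fun N : ℕ => Real.log (Real.log (Real.log (N : ℝ)))) atTop atTop :=
    Real.tendsto_log_atTop.comp t2
  have t4 : Tendsto (fun N : ℕ => Real.log (Real.log (Real.log (Real.log (N : ℝ))))) atTop atTop :=
    Real.tendsto_log_atTop.comp t3
  have tX : Tendsto (fun N : ℕ => (N : ℝ) ^ ε) atTop atTop :=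
    (tendsto_rpow_atTop hε).comp tendsto_natCast_atTop_atTop
  have hev := (tX.eventually_ge_atTop X₀).and ((t1.eventually_ge_atTop (1 / ε ^ 2 + 1 / ε + 1 / (c ^ 2 * ε))).and
    ((t2.eventually_ge_atTop (2 * |Real.log ε| + 4)).and ((t3.eventually_ge_atTop 4).and
      ((t4.eventually_ge_atTop 4).and (eventually_ge_atTop 2)))))
  obtain ⟨N₀, hN₀⟩ := eventually_atTop.1 hev
  refine ⟨N₀, fun N hN M hM hMN => ?_⟩
  obtain ⟨e1, e2, e3, e4, e5, e6⟩ := hN₀ N hN
  have hNpos : (0 : ℝ) < N := by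
    have : (2 : ℝ) ≤ N := by exact_mod_cast e6
    linarith
  set X : ℝ := (N : ℝ) ^ ε with hX
  set l := Real.log (N : ℝ) with hl
  have hl0 : 0 < l := by
    have : 0 < 1 / ε ^ 2 + 1 / ε + 1 / (c ^ 2 * ε) := by positivity
    linarith
  have hlogX : Real.log X = ε * l := by rw [hX, Real.log_rpow hNpos]
  set m := Real.log l with hm
  have habs := neg_abs_le (Real.log ε)
  have habs2 : 0 ≤ |Real.log ε| := abs_nonneg _
  have hm4 : 4 ≤ m := by linarith
  have hlogX2 : Real.log (Real.log X) = Real.log ε + m := by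
    rw [hlogX, Real.log_mul hε.ne' hl0.ne']
  have hx2lo : m / 2 ≤ Real.log (Real.log X) := by rw [hlogX2]; linarith
  have hx2hi : Real.log (Real.log X) ≤ m := by
    rw [hlogX2]
    have := Real.log_nonpos hε.le hε1
    linarith
  set m3 := Real.log m with hm3
  have hlog2 : Real.log 2 ≤ 1 := by have := Real.log_two_lt_d9; linarith
  have hx3lo : m3 / 2 ≤ Real.log (Real.log (Real.log X)) := by
    have h1 := Real.log_le_log (by linarith) hx2lo
    rw [Real.log_div (by linarith) (by norm_num)] at h1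
    linarith
  have hx3hi : Real.log (Real.log (Real.log X)) ≤ m3 := Real.log_le_log (by linarith) hx2hi
  set m4 := Real.log m3 with hm4'
  have hx4lo : m4 / 2 ≤ Real.log (Real.log (Real.log (Real.log X))) := by
    have h1 := Real.log_le_log (by linarith) hx3lo
    rw [Real.log_div (by linarith) (by norm_num)] at h1
    linarith
  have hfX : ε / 8 * f N ≤ f X := by
    unfold f
    rw [← hl, ← hm, ← hm3, ← hm4', hlogX]
    have hx3pos : 0 < Real.log (Real.log (Real.log X)) := by linarith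
    have hx1pos : 0 < Real.log X := by rw [hlogX]; positivity
    have hx4pos : 0 < Real.log (Real.log (Real.log (Real.log X))) := by linarith
    have h1 : ε * l * (m / 2) ^ 2 * (m4 / 2) / m3 ^ 2 ≤
        ε * l * (Real.log (ε * l)) ^ 2 * Real.log (Real.log (Real.log (ε * l))) /
          (Real.log (Real.log (ε * l))) ^ 2 := by
      rw [← hlogX]
      gcongr
    refine le_trans (le_of_eq ?_) h1
    have : m3 ≠ 0 := by linarith
    field_simp
    ring
  -- the window
  set L := Real.log X with hL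
  have hL1 : 1 / c ^ 2 ≤ L := by
    rw [hlogX]
    have h1 : 1 / (c ^ 2 * ε) ≤ l := by
      have h2 : 0 < 1 / ε ^ 2 := by positivity
      have h3 : 0 < 1 / ε := by positivity
      linarith
    calc 1 / c ^ 2 = ε * (1 / (c ^ 2 * ε)) := by field_simp
      _ ≤ ε * l := by gcongr
  have hLpos : 0 < L := lt_of_lt_of_le (by positivity) hL1
  have hLL1 : 1 ≤ Real.log L := by linarith
  have hU : L ^ (1 / 2 : ℝ) ≤ c * (L * Real.log L) := by
    rw [← Real.sqrt_eq_rpow]
    have h1 : 1 / c ≤ Real.sqrt L := by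
      apply Real.le_sqrt_of_sq_le
      rw [div_pow, one_pow]
      exact hL1
    have h2 : Real.sqrt L * Real.sqrt L = L := Real.mul_self_sqrt hLpos.le
    have h3 : 0 ≤ Real.sqrt L := Real.sqrt_nonneg _
    have h4 : 1 ≤ c * Real.sqrt L := by
      rw [div_le_iff₀ hc] at h1
      linarith
    calc Real.sqrt L = 1 * Real.sqrt L := (one_mul _).symm
      _ ≤ (c * Real.sqrt L) * Real.sqrt L := by gcongr
      _ = c * L * 1 := by rw [mul_assoc, h2, mul_one]
      _ ≤ c * L * Real.log L := by gcongr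
      _ = _ := by ring
  have hNb : |((N : ℤ) : ℝ)| ≤ Real.exp (L ^ 2) := by
    push_cast
    rw [abs_of_pos hNpos, ← Real.exp_log hNpos]
    apply Real.exp_le_exp.2
    rw [← hl, hlogX]
    have h1 : 1 / ε ^ 2 ≤ l := by
      have h2 : 0 < 1 / (c ^ 2 * ε) := by positivity
      have h3 : 0 < 1 / ε := by positivity
      linarith
    rw [div_le_iff₀ (by positivity)] at h1
    calc l = 1 * l := (one_mul _).symm
      _ ≤ (l * ε ^ 2) * l := by gcongr
      _ = (ε * l) ^ 2 := by ring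
  obtain ⟨n, hn1, hn2, hn3', hn4⟩ := h X e1 {((-1 : ℤ), (N : ℤ))} (c * (L * Real.log L)) hU
    (by rw [card_singleton]; push_cast; linarith) (by
      intro t ht
      rw [mem_singleton] at ht
      rw [ht]
      exact ⟨by norm_num, by norm_num, hNb⟩) M
  have hn3 : PrimeFree (n : ℝ) (c * f X) := by
    have h1 := hn3' 1 one_ne_zero (by norm_num)
    push_cast at h1
    rwa [one_mul] at h1
  have hn5 : PrimeFree ((N : ℝ) - n) (c * (L * Real.log L)) := by
    have h1 := hn4 _ (mem_singleton_self _)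
    simp only at h1
    push_cast at h1
    rwa [show (-1 : ℝ) * n + N = N - n by ring] at h1
  have hn0 : 0 ≤ n := by
    have : (0 : ℝ) < n := by linarith
    exact_mod_cast this.le
  have hnN : n ≤ N := by
    have : (n : ℝ) ≤ N := by linarith
    exact_mod_cast this
  have hnr : ((n.toNat : ℕ) : ℝ) = n := by
    have : ((n.toNat : ℕ) : ℤ) = n := Int.toNat_of_nonneg hn0
    exact_mod_cast this
  have hnr2 : (((N - n.toNat : ℕ)) : ℝ) = N - n := by
    rw [Nat.cast_sub (by omega), hnr]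
  refine ⟨n.toNat, N - n.toNat, by omega, by rw [hnr]; exact hn1, by rw [hnr]; exact hn2, ?_, ?_⟩
  · rw [hnr]
    intro q hq
    refine lt_of_le_of_lt ?_ (hn3 q hq)
    calc c * (ε / 8) * f N = c * (ε / 8 * f N) := by ring
      _ ≤ c * f X := by gcongr
  · rw [hnr2]
    intro q hq
    refine lt_of_le_of_lt ?_ (hn5 q hq)
    rw [hlogX, hlogX2] at *
    have h1 : ε / 8 * (l * m) ≤ ε * l * (Real.log ε + m) := by
      have h2 : m / 8 ≤ Real.log ε + m := by linarith
      calc ε / 8 * (l * m) = ε * l * (m / 8) := by ring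
        _ ≤ ε * l * (Real.log ε + m) := by gcongr
    calc c * (ε / 8) * (l * m) = c * (ε / 8 * (l * m)) := by ring
      _ ≤ c * (ε * l * (Real.log ε + m)) := by gcongr

end Pool.Agent.W5h1.PB
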