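import Pool.Agent.W5h1.PB.EngF

set_option autoImplicit false
set_option maxHeartbeats 4000000

/-! # Prime-free neighbourhoods of the values of families of linear forms -/

namespace Pool.Agent.W5h1.PB

open Finset Filter Pool.Agent.H318R2.Cr Pool.Agent.H361R2.PA

open scoped Classical

/-- record windows around the multiples `α n`, and prime-free windows of total length
`c log X log log X` around the values of the forms of `T` -/
theorem forms_windows (D Am : ℕ) (δ : ℝ) (hδ : 0 < δ) : ∃ c : ℝ, 0 < c ∧ ∃ X₀ : ℝ,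
    ∀ X : ℝ, X₀ ≤ X → ∀ (T : Finset (ℤ × ℤ)) (U : ℕ), (Real.log X) ^ δ ≤ U →
    (T.card : ℝ) * U ≤ c * (Real.log X * Real.log (Real.log X)) →
    (∀ x ∈ T, x.1 ≠ 0 ∧ |x.1| ≤ Am ∧ |(x.2 : ℝ)| ≤ Real.exp ((Real.log X) ^ D)) →
    ∀ z : ℤ, ∃ n : ℤ, (z : ℝ) + X / 4 < n ∧ (n : ℝ) ≤ z + X ∧
      (∀ α : ℤ, α ≠ 0 → |α| ≤ Am → ∀ j : ℤ, |(j : ℝ)| ≤ c * FF 1 X → ¬ Prime (α * n + j)) ∧
      ∀ x ∈ T, ∀ j : ℤ, |(j : ℝ)| ≤ U → ¬ Prime (x.1 * n + x.2 + j) := by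
  set Q : ℕ := Am.factorial with hQd
  have hQ : 0 < Q := Nat.factorial_pos _
  obtain ⟨c₀, hc₀, X₁, heng⟩ := engineF (D + 1) Q hQ
  obtain ⟨C, hC, X₂, hwin⟩ := window δ hδ
  obtain ⟨c₂, hc₂, X₃, hfacts⟩ := facts (2 * Am + 2)
  set c' : ℝ := min (1 / 10) (c₀ / (484 * (2 * Am + 1))) with hc'
  have hAm0 : (0 : ℝ) ≤ Am := Nat.cast_nonneg _
  have hc'0 : 0 < c' := by rw [hc']; positivity
  have hc'1 : c' ≤ 1 / 10 := min_le_left _ _
  have hc'2 : c' ≤ c₀ / (484 * (2 * Am + 1)) := min_le_right _ _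
  obtain ⟨X₄, hcen⟩ := central c' hc'0 hc'1
  refine ⟨min c' (min (1 / 3) (c₀ / (2 * C))), by positivity, max X₁ (max X₂ (max X₃ X₄)), ?_⟩
  intro X hX T U hU hTU hT z
  set c := min c' (min (1 / 3) (c₀ / (2 * C))) with hcdef
  have hcc' : c ≤ c' := min_le_left _ _
  have hc3 : c ≤ 1 / 3 := (min_le_right _ _).trans (min_le_left _ _)
  have hcC : c ≤ c₀ / (2 * C) := (min_le_right _ _).trans (min_le_right _ _)
  have hc0 : 0 < c := by rw [hcdef]; positivity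
  have hX1 : X₁ ≤ X := (le_max_left _ _).trans hX
  have hX' := (le_max_right _ _).trans hX
  have hX2 : X₂ ≤ X := (le_max_left _ _).trans hX'
  have hX'' := (le_max_right _ _).trans hX'
  have hX3 : X₃ ≤ X := (le_max_left _ _).trans hX''
  have hX4 : X₄ ≤ X := (le_max_right _ _).trans hX''
  obtain ⟨hX0, g1, g2, g3, g4, g5, g6, g7, g8, g9, g10, g11, g12, g13, g14⟩ := hfacts X hX3
  obtain ⟨hF0, hLc, hLfil⟩ := hcen X hX4 _ rfl
  set L : ℕ := ⌊c' * FF 1 X⌋₊ with hLdef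
  set L1 := Real.log X with hL1
  set u₂ := Real.log L1 with hu₂
  set u₃ := Real.log u₂ with hu₃
  set u₄ := Real.log u₃ with hu₄
  have hu₃0 : 0 < u₃ := by linarith
  have hu₂0 : 0 < u₂ := by linarith
  have hu₄0 : 0 < u₄ := by linarith
  have hL10 : 0 < L1 := by linarith
  have hAmu : 2 * (Am : ℝ) + 2 ≤ u₂ := by nlinarith
  have hU1' : (1 : ℝ) ≤ U := by
    refine le_trans ?_ hU
    exact Real.one_le_rpow (by linarith) hδ.le
  have hu₂L : u₂ ≤ L1 := by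
    have h5 : u₂ ≤ u₂ ^ 3 := by nlinarith [sq_nonneg u₂]
    linarith
  have hUX : T.Nonempty → (U : ℝ) ≤ L1 ^ 2 := by
    intro hne
    have h1 : (1 : ℝ) ≤ T.card := by exact_mod_cast hne.card_pos
    have h2 : (U : ℝ) ≤ T.card * U := by nlinarith
    have h3 : c * (L1 * u₂) ≤ 1 * (L1 * L1) := by
      gcongr
      linarith
    calc (U : ℝ) ≤ T.card * U := h2
      _ ≤ c * (L1 * u₂) := hTU
      _ ≤ 1 * (L1 * L1) := h3
      _ = L1 ^ 2 := by ring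
  set Ml : Finset ℤ := (Icc (-(Am : ℤ)) Am).filter (fun α => α ≠ 0) with hMl
  have hMlcard : (Ml.card : ℝ) ≤ 2 * Am + 1 := by
    have h1 : Ml.card ≤ (Icc (-(Am : ℤ)) Am).card := card_filter_le _ _
    rw [Int.card_Icc] at h1
    have h2 : Ml.card ≤ 2 * Am + 1 := by omega
    exact_mod_cast h2
  set A₁ : Finset (ℤ × ℤ) := Ml ×ˢ Icc (-(L : ℤ)) (L : ℤ) with hA₁
  set A₂ : Finset (ℤ × ℤ) := T.biUnion (fun x => (Icc (x.2 - (U : ℤ)) (x.2 + U)).image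
    (fun a => (x.1, a))) with hA₂
  set A := A₁ ∪ A₂ with hA
  -- cardinalities
  have hA₁card : (A₁.card : ℝ) ≤ (2 * Am + 1) * (L1 * u₂ ^ 2) := by
    rw [hA₁, card_product]
    have h1 : ((Icc (-(L : ℤ)) (L : ℤ)).card : ℝ) = 2 * L + 1 := by
      rw [Int.card_Icc]
      have : ((L : ℤ) + 1 - -(L : ℤ)).toNat = 2 * L + 1 := by omega
      rw [this]
      push_cast
      ring
    push_cast
    rw [h1]
    gcongr
  have hA₂card : (A₂.card : ℝ) ≤ L1 * u₂ := by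
    have h1 : A₂.card ≤ ∑ x ∈ T, ((Icc (x.2 - (U : ℤ)) (x.2 + U)).image
      (fun a => (x.1, a))).card := card_biUnion_le
    have h2 : ∀ x ∈ T, ((Icc (x.2 - (U : ℤ)) (x.2 + U)).image
      (fun a => (x.1, a))).card ≤ 2 * U + 1 := by
      intro t _
      refine card_image_le.trans ?_
      rw [Int.card_Icc]
      omega
    have h1' := h1.trans (sum_le_sum h2)
    rw [sum_const, smul_eq_mul] at h1'
    have h3 : (A₂.card : ℝ) ≤ T.card * (2 * U + 1) := by exact_mod_cast h1'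
    have h4 : (T.card : ℝ) * (2 * U + 1) ≤ 3 * (T.card * U) := by
      have : (0 : ℝ) ≤ T.card := Nat.cast_nonneg _
      nlinarith
    calc (A₂.card : ℝ) ≤ 3 * (T.card * U) := h3.trans h4
      _ ≤ 3 * (c * (L1 * u₂)) := by gcongr
      _ ≤ 3 * (1 / 3 * (L1 * u₂)) := by gcongr
      _ = L1 * u₂ := by ring
  have hAcard : (A.card : ℝ) ≤ L1 ^ 2 := by
    have h1 : (A.card : ℝ) ≤ A₁.card + A₂.card := by exact_mod_cast card_union_le _ _
    have h2 : L1 * u₂ ≤ L1 * u₂ ^ 2 := by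
      apply mul_le_mul_of_nonneg_left _ (by linarith)
      nlinarith
    have h3 : (2 * (Am : ℝ) + 1) * (L1 * u₂ ^ 2) + L1 * u₂ ^ 2 ≤ u₂ * (L1 * u₂ ^ 2) := by
      have h4 : (0 : ℝ) ≤ L1 * u₂ ^ 2 := by positivity
      nlinarith
    have h5 : u₂ * (L1 * u₂ ^ 2) ≤ L1 * L1 := by
      have h6 : u₂ * (L1 * u₂ ^ 2) = L1 * u₂ ^ 3 := by ring
      rw [h6]
      gcongr
    have h8 : L1 ^ 2 = L1 * L1 := by ring
    rw [h8]
    linarith
  -- the numbers without medium prime factor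
  have hA₁fil : (((A₁.filter (fun x => ∀ p : ℕ, p.Prime → (p : ℝ) ≤ L1 / 10 →
      WW (L1 / 10) < Real.log p → ¬ (p : ℤ) ∣ x.2)).card : ℕ) : ℝ) ≤
      c₀ / 2 * (L1 * (u₂ * u₄ / u₃)) := by
    have h1 : A₁.filter (fun x => ∀ p : ℕ, p.Prime → (p : ℝ) ≤ L1 / 10 →
      WW (L1 / 10) < Real.log p → ¬ (p : ℤ) ∣ x.2) ⊆ Ml ×ˢ ((Icc (-(L : ℤ)) (L : ℤ)).filter
        (fun a => ∀ p : ℕ, p.Prime → (p : ℝ) ≤ L1 / 10 →
      WW (L1 / 10) < Real.log p → ¬ (p : ℤ) ∣ a)) := by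
      intro x hx
      rw [mem_filter, hA₁, mem_product] at hx
      exact mem_product.2 ⟨hx.1.1, mem_filter.2 ⟨hx.1.2, hx.2⟩⟩
    have h2 := card_le_card h1
    rw [card_product] at h2
    have h3 : (((A₁.filter (fun x => ∀ p : ℕ, p.Prime → (p : ℝ) ≤ L1 / 10 →
      WW (L1 / 10) < Real.log p → ¬ (p : ℤ) ∣ x.2)).card : ℕ) : ℝ) ≤
        (Ml.card : ℝ) * (((Icc (-(L : ℤ)) (L : ℤ)).filter
        (fun a => ∀ p : ℕ, p.Prime → (p : ℝ) ≤ L1 / 10 →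
      WW (L1 / 10) < Real.log p → ¬ (p : ℤ) ∣ a)).card : ℝ) := by exact_mod_cast h2
    refine h3.trans ?_
    have h4 : 0 ≤ L1 * (u₂ * u₄ / u₃) := by positivity
    calc (Ml.card : ℝ) * (((Icc (-(L : ℤ)) (L : ℤ)).filter
        (fun a => ∀ p : ℕ, p.Prime → (p : ℝ) ≤ L1 / 10 →
      WW (L1 / 10) < Real.log p → ¬ (p : ℤ) ∣ a)).card : ℝ)
        ≤ (2 * Am + 1) * (242 * c' * (L1 * (u₂ * u₄ / u₃))) := by gcongr
      _ ≤ (2 * Am + 1) * (242 * (c₀ / (484 * (2 * Am + 1))) * (L1 * (u₂ * u₄ / u₃))) := by gcongr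
      _ = c₀ / 2 * (L1 * (u₂ * u₄ / u₃)) := by
          field_simp
          ring
  have hA₂fil : (((A₂.filter (fun x => ∀ p : ℕ, p.Prime → (p : ℝ) ≤ L1 / 10 →
      WW (L1 / 10) < Real.log p → ¬ (p : ℤ) ∣ x.2)).card : ℕ) : ℝ) ≤
      c₀ / 2 * (L1 * (u₂ * u₄ / u₃)) := by
    have h0 : A₂.filter (fun x => ∀ p : ℕ, p.Prime → (p : ℝ) ≤ L1 / 10 →
        WW (L1 / 10) < Real.log p → ¬ (p : ℤ) ∣ x.2) ⊆
        T.biUnion (fun x => ((Icc (x.2 - (U : ℤ)) (x.2 + U)).filter (fun a => ∀ p : ℕ, p.Prime →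
        (p : ℝ) ≤ L1 / 10 → WW (L1 / 10) < Real.log p → ¬ (p : ℤ) ∣ a)).image
        (fun a => (x.1, a))) := by
      intro w hw
      rw [mem_filter, hA₂, mem_biUnion] at hw
      obtain ⟨⟨x, hx, hwx⟩, hw2⟩ := hw
      rw [mem_image] at hwx
      obtain ⟨a, ha, rfl⟩ := hwx
      rw [mem_biUnion]
      exact ⟨x, hx, mem_image.2 ⟨a, mem_filter.2 ⟨ha, hw2⟩, rfl⟩⟩
    have h1 := (card_le_card h0).trans card_biUnion_le
    have h1' : (((A₂.filter (fun x => ∀ p : ℕ, p.Prime → (p : ℝ) ≤ L1 / 10 →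
        WW (L1 / 10) < Real.log p → ¬ (p : ℤ) ∣ x.2)).card : ℕ) : ℝ) ≤
        ∑ x ∈ T, ((((Icc (x.2 - (U : ℤ)) (x.2 + U)).filter (fun a => ∀ p : ℕ, p.Prime →
        (p : ℝ) ≤ L1 / 10 → WW (L1 / 10) < Real.log p → ¬ (p : ℤ) ∣ a)).image
        (fun a => (x.1, a))).card : ℝ) := by exact_mod_cast h1
    refine h1'.trans ?_
    have h3 : ∀ x ∈ T, ((((Icc (x.2 - (U : ℤ)) (x.2 + U)).filter (fun a => ∀ p : ℕ, p.Prime →
        (p : ℝ) ≤ L1 / 10 → WW (L1 / 10) < Real.log p → ¬ (p : ℤ) ∣ a)).image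
        (fun a => (x.1, a))).card : ℝ) ≤
        C * (U * (u₄ / u₃)) := fun x hx => by
      refine le_trans ?_ (hwin X hX2 x.2 U hU (hUX ⟨x, hx⟩))
      exact_mod_cast card_image_le
    refine (sum_le_sum h3).trans ?_
    rw [sum_const, nsmul_eq_mul]
    have h4 : 0 ≤ u₄ / u₃ := by positivity
    calc (T.card : ℝ) * (C * (U * (u₄ / u₃))) = C * (T.card * U) * (u₄ / u₃) := by ring
      _ ≤ C * (c * (L1 * u₂)) * (u₄ / u₃) := by gcongr
      _ ≤ C * (c₀ / (2 * C) * (L1 * u₂)) * (u₄ / u₃) := by gcongr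
      _ = c₀ / 2 * (L1 * (u₂ * u₄ / u₃)) := by field_simp
  have hAfil : (((A.filter (fun x => ∀ p : ℕ, p.Prime → (p : ℝ) ≤ L1 / 10 →
      WW (L1 / 10) < Real.log p → ¬ (p : ℤ) ∣ x.2)).card : ℕ) : ℝ) ≤
      c₀ * (L1 * (u₂ * u₄ / u₃)) := by
    rw [hA, filter_union]
    have h1 := card_union_le (A₁.filter (fun x => ∀ p : ℕ, p.Prime → (p : ℝ) ≤ L1 / 10 →
      WW (L1 / 10) < Real.log p → ¬ (p : ℤ) ∣ x.2)) (A₂.filter (fun x => ∀ p : ℕ, p.Prime →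
      (p : ℝ) ≤ L1 / 10 → WW (L1 / 10) < Real.log p → ¬ (p : ℤ) ∣ x.2))
    have h2 : (((A₁.filter (fun x => ∀ p : ℕ, p.Prime → (p : ℝ) ≤ L1 / 10 →
      WW (L1 / 10) < Real.log p → ¬ (p : ℤ) ∣ x.2) ∪ A₂.filter (fun x => ∀ p : ℕ, p.Prime →
      (p : ℝ) ≤ L1 / 10 → WW (L1 / 10) < Real.log p → ¬ (p : ℤ) ∣ x.2)).card : ℕ) : ℝ) ≤
      ((A₁.filter (fun x => ∀ p : ℕ, p.Prime → (p : ℝ) ≤ L1 / 10 →
      WW (L1 / 10) < Real.log p → ¬ (p : ℤ) ∣ x.2)).card : ℝ) + ((A₂.filter (fun x => ∀ p : ℕ,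
      p.Prime → (p : ℝ) ≤ L1 / 10 → WW (L1 / 10) < Real.log p → ¬ (p : ℤ) ∣ x.2)).card : ℝ) := by
      exact_mod_cast h1
    linarith
  -- the sizes
  have hL2 : L1 ^ 2 ≤ Real.exp L1 := by
    have h5 := Real.pow_div_factorial_le_exp L1 (by linarith) 3
    have h6 : (Nat.factorial 3 : ℝ) = 6 := by norm_num [Nat.factorial]
    rw [h6] at h5
    refine le_trans ?_ h5
    rw [le_div_iff₀ (by norm_num)]
    have : 0 ≤ L1 ^ 2 := by positivity
    nlinarith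
  have hexp : Real.exp L1 ≤ Real.exp (L1 ^ (D + 1)) := by
    apply Real.exp_le_exp.2
    calc L1 = L1 ^ 1 := (pow_one _).symm
      _ ≤ L1 ^ (D + 1) := pow_le_pow_right₀ (by linarith) (by omega)
  have hexp2 : 2 * Real.exp (L1 ^ (D + 1)) ≤ Real.exp (L1 ^ (D + 1 + 1)) := by
    have h8 : (2 : ℝ) ≤ Real.exp 1 := by
      have := Real.add_one_le_exp (1 : ℝ)
      linarith
    calc 2 * Real.exp (L1 ^ (D + 1)) ≤ Real.exp 1 * Real.exp (L1 ^ (D + 1)) := by gcongr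
      _ = Real.exp (1 + L1 ^ (D + 1)) := (Real.exp_add _ _).symm
      _ ≤ Real.exp (L1 ^ (D + 1 + 1)) := by
          apply Real.exp_le_exp.2
          have h9 : 1 ≤ L1 ^ (D + 1) := one_le_pow₀ (by linarith)
          rw [pow_succ L1 (D + 1)]
          nlinarith
  have hexp0 := Real.exp_pos (L1 ^ (D + 1))
  have hAb : ∀ x ∈ A, x.1 ∣ (Q : ℤ) ∧ |(x.2 : ℝ)| ≤ Real.exp (L1 ^ (D + 1 + 1)) := by
    have hdiv : ∀ α : ℤ, α ≠ 0 → |α| ≤ Am → α ∣ (Q : ℤ) := by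
      intro α h0 h1
      have h2 : α.natAbs ∣ Q := by
        apply Nat.dvd_factorial
        · exact Int.natAbs_pos.2 h0
        · have : ((α.natAbs : ℕ) : ℤ) = |α| := Int.natCast_natAbs α
          omega
      exact Int.natAbs_dvd.1 (Int.natCast_dvd_natCast.2 h2)
    intro x hx
    rw [hA, mem_union] at hx
    rcases hx with hx | hx
    · rw [hA₁, mem_product, hMl, mem_filter, mem_Icc, mem_Icc] at hx
      obtain ⟨⟨h1, h2⟩, h3⟩ := hx
      refine ⟨hdiv _ h2 (abs_le.2 h1), ?_⟩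
      have h4 : |(x.2 : ℝ)| ≤ L := by
        rw [abs_le]
        constructor
        · have : ((-(L : ℤ) : ℤ) : ℝ) ≤ x.2 := by exact_mod_cast h3.1
          push_cast at this
          linarith
        · have : (x.2 : ℝ) ≤ ((L : ℤ) : ℝ) := by exact_mod_cast h3.2
          push_cast at this
          linarith
      have h5 : L1 * u₂ ^ 2 ≤ L1 * L1 := by
        have h6 : u₂ ^ 2 ≤ u₂ ^ 3 := pow_le_pow_right₀ (by linarith) (by norm_num)
        gcongr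
        linarith
      have h7 : L1 * L1 = L1 ^ 2 := by ring
      have h8 : (0 : ℝ) ≤ L := Nat.cast_nonneg _
      linarith
    · rw [hA₂, mem_biUnion] at hx
      obtain ⟨w, hw, hx⟩ := hx
      rw [mem_image] at hx
      obtain ⟨a, ha, rfl⟩ := hx
      rw [mem_Icc] at ha
      obtain ⟨h0, h1, h2⟩ := hT w hw
      refine ⟨hdiv _ h0 h1, ?_⟩
      have h3 := hUX ⟨w, hw⟩
      simp only
      have h4 : |(a : ℝ)| ≤ |(w.2 : ℝ)| + U := by
        have h4 : ((w.2 : ℝ)) - U ≤ a := by exact_mod_cast ha.1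
        have h5 : (a : ℝ) ≤ w.2 + U := by exact_mod_cast ha.2
        rw [abs_le]
        constructor
        · have := neg_abs_le (w.2 : ℝ); linarith
        · have := le_abs_self (w.2 : ℝ); linarith
      have h6 : Real.exp (L1 ^ D) ≤ Real.exp (L1 ^ (D + 1)) := by
        apply Real.exp_le_exp.2
        exact pow_le_pow_right₀ (by linarith) (by omega)
      linarith
  obtain ⟨n, hn1, hn2, hn3⟩ := heng X hX1 A hAcard hAb hAfil z
  have hFF : 0 ≤ FF 1 X := by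
    unfold FF
    rw [← hL1, ← hu₂, ← hu₃, ← hu₄]
    positivity
  refine ⟨n, hn1, hn2, ?_, ?_⟩
  · intro α hα0 hα j hj
    apply hn3 (α, j)
    rw [hA, mem_union]
    left
    rw [hA₁, mem_product, hMl, mem_filter, mem_Icc, mem_Icc]
    refine ⟨⟨abs_le.1 hα, hα0⟩, ?_⟩
    have hj' : |(j : ℝ)| ≤ c' * FF 1 X := hj.trans (by gcongr)
    rw [abs_le] at hj'
    have h1 : ⌊c' * FF 1 X⌋ = (L : ℤ) := (Int.natCast_floor_eq_floor hF0).symm
    constructor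
    · have h2 : -j ≤ ⌊c' * FF 1 X⌋ := Int.le_floor.2 (by push_cast; linarith [hj'.1])
      simp only
      linarith
    · have h2 : j ≤ ⌊c' * FF 1 X⌋ := Int.le_floor.2 hj'.2
      simp only
      linarith
  · intro x hx j hj
    have h1 : x.1 * n + x.2 + j = x.1 * n + (x.2 + j) := by ring
    rw [h1]
    apply hn3 (x.1, x.2 + j)
    rw [hA, mem_union]
    right
    rw [hA₂, mem_biUnion]
    refine ⟨x, hx, mem_image.2 ⟨x.2 + j, ?_, rfl⟩⟩
    rw [mem_Icc]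
    rw [abs_le] at hj
    have h2 : (-(U : ℤ)) ≤ j := by exact_mod_cast hj.1
    have h3 : j ≤ (U : ℤ) := by exact_mod_cast hj.2
    constructor <;> linarith

end Pool.Agent.W5h1.PB
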