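import Pool.Agent.H318R2.Cr.Prod
import Pool.Agent.Helper602.MK.J3

set_option autoImplicit false

/-! # The integers of an interval without prime factors between `v` and `R` -/

namespace Pool.Agent.W5h1.PB

open Finset Pool.Agent.H318R2.Cr Pool.Agent.Helper602.MK.BTLib

open scoped Classical

/-- the product of the primes up to `v` -/
def prim (v : ℕ) : ℕ := ∏ p ∈ Pz v, p

theorem mem_Pz' {v p : ℕ} : p ∈ Pz v ↔ p.Prime ∧ p ≤ v := by
  unfold Pz
  rw [mem_filter, mem_Ioc]
  exact ⟨fun h => ⟨h.2, h.1.2⟩, fun h => ⟨⟨h.1.pos, h.2⟩, h.1⟩⟩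

theorem prim_pos (v : ℕ) : 0 < prim v :=
  prod_pos fun _ hp => (mem_Pz'.1 hp).1.pos

theorem prime_dvd_prim {v p : ℕ} (hp : p.Prime) : p ∣ prim v ↔ p ≤ v := by
  constructor
  · intro h
    rw [prim] at h
    obtain ⟨q, hq, hpq⟩ := (hp.prime.dvd_finsetProd_iff _).1 h
    rw [(Nat.prime_dvd_prime_iff_eq hp (mem_Pz'.1 hq).1).1 hpq]
    exact (mem_Pz'.1 hq).2
  · intro h
    exact dvd_prod_of_mem (fun p => p) (mem_Pz'.2 ⟨hp, h⟩)

theorem prim_ratio (v : ℕ) : ((prim v : ℕ) : ℝ) / (Nat.totient (prim v) : ℝ) = 1 / V v := by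
  have h1 := Nat.totient_eq_mul_prod_factors (prim v)
  have h2 : (prim v).primeFactors = Pz v := by
    ext p
    rw [Nat.mem_primeFactors, mem_Pz']
    constructor
    · rintro ⟨h3, h4, -⟩
      exact ⟨h3, (prime_dvd_prim h3).1 h4⟩
    · rintro ⟨h3, h4⟩
      exact ⟨h3, (prime_dvd_prim h3).2 h4, (prim_pos v).ne'⟩
  rw [h2] at h1
  have h3 : ((Nat.totient (prim v) : ℕ) : ℝ) = (prim v : ℝ) * V v := by
    have h4 : (((Nat.totient (prim v) : ℕ) : ℚ) : ℝ) =
        ((((prim v : ℕ) : ℚ) * ∏ p ∈ Pz v, (1 - ((p : ℕ) : ℚ)⁻¹) : ℚ) : ℝ) := by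
      rw [h1]
    push_cast at h4
    rw [h4, V]
    simp only [one_div]
  have hp0 : (0 : ℝ) < prim v := by exact_mod_cast prim_pos v
  have ht : (0 : ℝ) < Nat.totient (prim v) := by
    exact_mod_cast Nat.totient_pos.2 (prim_pos v)
  have hV : V v ≠ 0 := by
    intro h
    rw [h, mul_zero] at h3
    linarith
  rw [h3]
  field_simp

/-- the sieve bound for an interval of natural numbers -/
theorem rough_nat (v R t N : ℕ) (hR : 1 ≤ R) :
    (((range N).filter (fun k => ∀ p : ℕ, p.Prime → v < p → p ≤ R → ¬ p ∣ t + k)).card : ℝ) ≤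
      2 * (1 / V v) * N / Real.log ((R : ℝ) + 1) + (R : ℝ) ^ 4 := by
  set q := prim v with hqd
  have hq0 : 0 < q := prim_pos v
  have hq : 1 ≤ q := hq0
  set a := q * t with ha
  have hq0' : (0 : ℝ) < q := by exact_mod_cast hq0
  have hphi : (0 : ℝ) < Nat.totient q := by
    exact_mod_cast Nat.totient_pos.2 hq
  have hR' : (1 : ℝ) ≤ R := by exact_mod_cast hR
  have hinj : ∀ x ∈ Finset.range N, ∀ y ∈ Finset.range N,
      (fun k => a + k * q) x = (fun k => a + k * q) y → x = y := by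
    intro x _ y _ hxy
    simp only at hxy
    exact Nat.eq_of_mul_eq_mul_right hq0 (by omega)
  have e : (apSieve a q N R).siftedSum =
      (((Finset.range N).filter (fun k => Nat.Coprime (PP q R) (a + k * q))).card : ℝ) := by
    unfold BoundingSieve.siftedSum
    have h0 : (apSieve a q N R).support = (Finset.range N).image (fun k => a + k * q) := rfl
    rw [h0, Finset.sum_image hinj, Finset.card_filter]
    push_cast
    apply Finset.sum_congr rfl
    intro k _
    have h : (apSieve a q N R).prodPrimes = PP q R := rfl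
    have h' : (apSieve a q N R).weights (a + k * q) = 1 := rfl
    by_cases hc : Nat.Coprime (PP q R) (a + k * q)
    · rw [if_pos hc, if_pos (by rw [h]; exact hc), h']
    · rw [if_neg hc, if_neg (by rw [h]; exact hc)]
  have h1 : (range N).filter (fun k => ∀ p : ℕ, p.Prime → v < p → p ≤ R → ¬ p ∣ t + k) ⊆
      (Finset.range N).filter (fun k => Nat.Coprime (PP q R) (a + k * q)) := by
    intro k hk
    rw [mem_filter] at hk ⊢
    refine ⟨hk.1, ?_⟩
    apply Nat.Coprime.symm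
    apply Nat.Coprime.symm
    rw [Nat.coprime_iff_gcd_eq_one]
    by_contra hne
    obtain ⟨p, hp, hpd⟩ := Nat.exists_prime_and_dvd hne
    have h2 : p ∣ PP q R := hpd.trans (Nat.gcd_dvd_left _ _)
    have h3 : p ∣ a + k * q := hpd.trans (Nat.gcd_dvd_right _ _)
    obtain ⟨h4, h5⟩ := (prime_dvd_PP hp).1 h2
    have h6 : v < p := by
      by_contra hc
      push Not at hc
      exact h5 ((prime_dvd_prim hp).2 hc)
    have h7 : a + k * q = q * (t + k) := by rw [ha]; ring
    rw [h7] at h3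
    rcases (Nat.Prime.dvd_mul hp).1 h3 with h8 | h8
    · exact h5 h8
    · exact hk.2 p hp h6 h4 h8
  have h1' : (((range N).filter (fun k => ∀ p : ℕ, p.Prime → v < p → p ≤ R → ¬ p ∣ t + k)).card : ℝ) ≤
      (apSieve a q N R).siftedSum := by
    rw [e]
    exact_mod_cast card_le_card h1
  have h2 := siftedSum_le_selberg (apSieve a q N R) (R : ℝ) hR' 1 zero_le_one
    (fun d hd => apSieve_rem hq0 hd)
  have h3 := selS_ge_log (a := a) (N := N) (R := R) hq
  have hlog : 0 < Real.log ((R : ℝ) + 1) := Real.log_pos (by linarith)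
  have h4 : (apSieve a q N R).totalMass / selS (apSieve a q N R) R ≤
      2 * ((q : ℝ) / (Nat.totient q : ℝ)) * N / Real.log ((R : ℝ) + 1) := by
    change (N : ℝ) / _ ≤ _
    have : (N : ℝ) / selS (apSieve a q N R) R ≤
        (N : ℝ) / (Real.log ((R : ℝ) + 1) / (2 * ((q : ℝ) / (Nat.totient q : ℝ)))) := by
      apply div_le_div_of_nonneg_left (by positivity) (by positivity) h3
    refine this.trans (le_of_eq ?_)
    field_simp
  have h5 : (∑ d ∈ (Nat.divisors (apSieve a q N R).prodPrimes).filter (fun d : ℕ => (d : ℝ) ≤ R),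
      ((apSieve a q N R).nu d)⁻¹) ≤ (R : ℝ) ^ 2 := by
    have h6 : (Nat.divisors (apSieve a q N R).prodPrimes).filter (fun d : ℕ => (d : ℝ) ≤ R) ⊆
        Finset.Icc 1 R := by
      intro d hd
      rw [Finset.mem_filter, Nat.mem_divisors] at hd
      rw [Finset.mem_Icc]
      refine ⟨Nat.pos_of_ne_zero (ne_zero_of_dvd_ne_zero hd.1.2 hd.1.1), by exact_mod_cast hd.2⟩
    calc (∑ d ∈ (Nat.divisors (apSieve a q N R).prodPrimes).filter (fun d : ℕ => (d : ℝ) ≤ R),
          ((apSieve a q N R).nu d)⁻¹)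
        = ∑ d ∈ (Nat.divisors (apSieve a q N R).prodPrimes).filter (fun d : ℕ => (d : ℝ) ≤ R),
          (d : ℝ) := by
          apply Finset.sum_congr rfl
          intro d _
          change ((d : ℝ)⁻¹)⁻¹ = d
          rw [inv_inv]
      _ ≤ ∑ d ∈ Finset.Icc 1 R, (d : ℝ) :=
          Finset.sum_le_sum_of_subset_of_nonneg h6 (fun _ _ _ => by positivity)
      _ ≤ ∑ d ∈ Finset.Icc 1 R, (R : ℝ) := by
          apply Finset.sum_le_sum
          intro d hd
          exact_mod_cast (Finset.mem_Icc.mp hd).2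
      _ = (R : ℝ) ^ 2 := by simp; ring
  have h7 : 0 ≤ (∑ d ∈ (Nat.divisors (apSieve a q N R).prodPrimes).filter (fun d : ℕ => (d : ℝ) ≤ R),
      ((apSieve a q N R).nu d)⁻¹) := by
    apply Finset.sum_nonneg
    intro d _
    change 0 ≤ ((d : ℝ)⁻¹)⁻¹
    positivity
  have h8 : (∑ d ∈ (Nat.divisors (apSieve a q N R).prodPrimes).filter (fun d : ℕ => (d : ℝ) ≤ R),
      ((apSieve a q N R).nu d)⁻¹) ^ 2 ≤ (R : ℝ) ^ 4 := by
    calc _ ≤ ((R : ℝ) ^ 2) ^ 2 := by gcongr
      _ = (R : ℝ) ^ 4 := by ring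
  rw [prim_ratio] at h4
  linarith

/-- the sieve bound for an interval of integers -/
theorem rough_int (v R : ℕ) (t : ℤ) (U : ℕ) (hR : 1 ≤ R) :
    (((Icc (t - U) (t + U)).filter (fun a : ℤ => ∀ p : ℕ, p.Prime → v < p → p ≤ R →
      ¬ (p : ℤ) ∣ a)).card : ℝ) ≤
      2 * (1 / V v) * (2 * U + 1) / Real.log ((R : ℝ) + 1) + (R : ℝ) ^ 4 := by
  set P : ℕ := prim R with hP
  have hP0 : 0 < P := prim_pos R
  have hP0' : (0 : ℤ) < P := by exact_mod_cast hP0
  set t' : ℕ := ((t - U) % (P : ℤ)).toNat with ht'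
  have ht'' : (t' : ℤ) = (t - U) % (P : ℤ) := by
    rw [ht', Int.toNat_of_nonneg (Int.emod_nonneg _ hP0'.ne')]
  have h := rough_nat v R t' (2 * U + 1) hR
  push_cast at h
  refine le_trans ?_ h
  have hcard : ((Icc (t - U) (t + U)).filter (fun a : ℤ => ∀ p : ℕ, p.Prime → v < p → p ≤ R →
      ¬ (p : ℤ) ∣ a)).card ≤
      ((range (2 * U + 1)).filter (fun k => ∀ p : ℕ, p.Prime → v < p → p ≤ R → ¬ p ∣ t' + k)).card := by
    apply card_le_card_of_injOn (fun a : ℤ => (a - (t - U)).toNat)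
    · intro a ha
      rw [mem_coe, mem_filter, mem_Icc] at ha
      rw [mem_coe, mem_filter, mem_range]
      have hlt : (a - (t - (U : ℤ))).toNat < 2 * U + 1 := by omega
      refine ⟨hlt, fun p hp hvp hpR hdiv => ha.2 p hp hvp hpR ?_⟩
      have h1 : (((a - (t - U)).toNat : ℕ) : ℤ) = a - (t - U) := Int.toNat_of_nonneg (by omega)
      have h2 : ((t' + (a - (t - U)).toNat : ℕ) : ℤ) = (t - U) % (P : ℤ) + (a - (t - U)) := by
        push_cast
        rw [ht'', h1]
      have h3 : (p : ℤ) ∣ ((t' + (a - (t - U)).toNat : ℕ) : ℤ) := by exact_mod_cast hdiv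
      rw [h2] at h3
      have h4 := Int.emod_add_mul_ediv (t - U) (P : ℤ)
      have h5 : (p : ℤ) ∣ (P : ℤ) := by exact_mod_cast (prime_dvd_prim hp).2 hpR
      have h6 : a = ((t - U) % (P : ℤ) + (a - (t - U))) + P * ((t - U) / (P : ℤ)) := by
        linarith
      rw [h6]
      exact dvd_add h3 (h5.mul_right _)
    · intro a ha b hb hab
      rw [mem_coe, mem_filter, mem_Icc] at ha hb
      simp only at hab
      omega
  exact_mod_cast hcard

end Pool.Agent.W5h1.PB
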