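import Pool.Agent.W5h1.PB.Rough
import Pool.Agent.H361R2.PA.Sc2

set_option autoImplicit false
set_option maxHeartbeats 4000000

/-! # A record gap around `n` and long prime-free windows at prescribed distances from `n` -/

namespace Pool.Agent.W5h1.PB

open Finset Filter Pool.Agent.H318R2.Cr Pool.Agent.H361R2.PA

open scoped Classical

/-- a record gap together with a set few elements of which have no medium prime factor
(after `Pool.Agent.H361R2.PA.record_plus`) -/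
theorem record_plus2 (D Q : ℕ) (hQ : 0 < Q) : ∃ c : ℝ, 0 < c ∧ ∃ X₀ : ℝ, ∀ X : ℝ, X₀ ≤ X →
    ∀ B : Finset ℤ,
    (B.card : ℝ) ≤ Real.log X * Real.log (Real.log X) →
    (((B.filter (fun a => ∀ p : ℕ, p.Prime → (p : ℝ) ≤ Real.log X / 10 →
      WW (Real.log X / 10) < Real.log p → ¬ (p : ℤ) ∣ a)).card : ℕ) : ℝ) ≤
      c * (Real.log X * (Real.log (Real.log X) *
      Real.log (Real.log (Real.log (Real.log X))) / Real.log (Real.log (Real.log X)))) →
    (∀ a ∈ B, |(a : ℝ)| ≤ Real.exp ((Real.log X) ^ (D + 1))) →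
    ∀ r z : ℤ, ∃ n : ℤ, (z : ℝ) + X / 4 < n ∧ (n : ℝ) ≤ z + X ∧
      (∀ q : ℕ, q.Prime → q ∣ Q → (q : ℤ) ∣ n - r) ∧
      (∀ j : ℤ, |(j : ℝ)| ≤ c * FF 1 X → ¬ Prime (n + j)) ∧ ∀ a ∈ B, ¬ Prime (n + a) := by
  obtain ⟨c₀, hc₀, X₁, heng⟩ := engine (D + 1) Q hQ
  obtain ⟨y₀, hmed⟩ := card_med
  set c' : ℝ := min (1 / 10) (c₀ / 1000) with hc'
  have hc'0 : 0 < c' := by positivity
  have hc'1 : c' ≤ 1 / 10 := min_le_left _ _
  have hc'2 : c' ≤ c₀ / 1000 := min_le_right _ _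
  obtain ⟨c₂, hc₂, X₂, hfacts⟩ := facts (2 / c' + 10 * |y₀|)
  refine ⟨c', hc'0, max X₁ X₂, ?_⟩
  intro X hX B hBc hB hBb r z
  have hX1 : X₁ ≤ X := (le_max_left _ _).trans hX
  obtain ⟨hX0, g1, g2, g3, g4, g5, g6, g7, g8, g9, g10, g11, g12, g13, g14⟩ :=
    hfacts X ((le_max_right _ _).trans hX)
  set L1 := Real.log X with hL1
  set u₂ := Real.log L1 with hu₂
  set u₃ := Real.log u₂ with hu₃
  set u₄ := Real.log u₃ with hu₄
  set y := L1 / 10 with hy
  have hy0 : 0 < y := by rw [hy]; linarith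
  have hu₃0 : 0 < u₃ := by linarith
  have hu₂0 : 0 < u₂ := by linarith
  have hu₄0 : 0 < u₄ := by linarith
  set F := c' * FF 1 X with hF
  have hFF : FF 1 X = L1 * (u₂ * u₄ / u₃) * (u₂ / u₃) := by
    unfold FF
    rw [← hL1, ← hu₂, ← hu₃, ← hu₄]
    field_simp
    ring
  have hyab : 0 ≤ |y₀| := abs_nonneg _
  have h2c : 0 < 2 / c' := by positivity
  have hr1 : 2 / c' ≤ u₂ / u₃ := by
    rw [le_div_iff₀ hu₃0]
    have h1 : 2 / c' * u₃ ≤ (2 / c' + 10 * |y₀|) * u₃ := by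
      apply mul_le_mul_of_nonneg_right _ hu₃0.le
      linarith
    linarith
  have hr2 : 1 ≤ u₂ * u₄ / u₃ := by
    rw [le_div_iff₀ hu₃0]
    nlinarith
  have hF0 : 0 ≤ F := by rw [hF, hFF]; positivity
  set L : ℕ := ⌊F⌋₊ with hLdef
  have hLF : (L : ℝ) ≤ F := Nat.floor_le hF0
  have hFlow : 2 * L1 ≤ F := by
    rw [hF, hFF]
    calc 2 * L1 = c' * (L1 * 1 * (2 / c')) := by field_simp
      _ ≤ c' * (L1 * (u₂ * u₄ / u₃) * (u₂ / u₃)) := by gcongr
  have hyL : y ≤ L := by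
    have h2 : F < L + 1 := Nat.lt_floor_add_one _
    rw [hy]
    linarith
  have hF2 : F ≤ L1 * u₂ ^ 2 / 10 := by
    rw [hF, hFF]
    have h1 : u₂ * u₄ / u₃ ≤ u₂ := by
      rw [div_le_iff₀ hu₃0]
      gcongr
    have h2 : u₂ / u₃ ≤ u₂ := div_le_self hu₂0.le (by linarith)
    calc c' * (L1 * (u₂ * u₄ / u₃) * (u₂ / u₃)) ≤ 1 / 10 * (L1 * u₂ * u₂) := by gcongr
      _ = _ := by ring
  have hLy : (L : ℝ) ≤ y * (Real.log y) ^ 4 := by
    refine hLF.trans (hF2.trans ?_)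
    have h1 : (u₂ / 2) ^ 4 ≤ (Real.log y) ^ 4 := by gcongr
    have h2 : u₂ ^ 2 ≤ (u₂ / 2) ^ 4 := by
      have : 0 ≤ u₂ ^ 2 := by positivity
      have e : (u₂ / 2) ^ 4 = u₂ ^ 2 * u₂ ^ 2 / 16 := by ring
      rw [e]
      nlinarith
    have h3 : L1 = 10 * y := by rw [hy]; ring
    calc L1 * u₂ ^ 2 / 10 = y * (u₂ ^ 2) := by rw [h3]; ring
      _ ≤ y * (Real.log y) ^ 4 := by gcongr; linarith
  have hyy : y₀ ≤ y := by
    have := le_abs_self y₀
    rw [hy]
    have h3 : 2 / c' + 10 * |y₀| ≤ L1 / 10 := g7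
    linarith
  have hcm := hmed y hyy L hyL hLy
  have hcard : ((NM y L).card : ℝ) ≤ 120 * c' * (L1 * (u₂ * u₄ / u₃)) := by
    refine hcm.trans ?_
    have h1 : 60 * (L : ℝ) * Real.log (Real.log y) / Real.log y ≤ 60 * F * u₃ / (u₂ / 2) := by
      apply div_le_div₀ (by positivity) _ (by positivity) g11
      gcongr
    refine h1.trans (le_of_eq ?_)
    rw [hF, hFF]
    field_simp
    ring
  set A : Finset ℤ := Icc (-(L : ℤ)) L ∪ B with hA
  have hcA1 : ((Icc (-(L : ℤ)) (L : ℤ)).card : ℝ) = 2 * L + 1 := by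
    rw [Int.card_Icc]
    have : ((L : ℤ) + 1 - -(L : ℤ)).toNat = 2 * L + 1 := by omega
    rw [this]
    push_cast
    ring
  have hu₂cube : u₂ ^ 3 = u₂ * u₂ ^ 2 := by ring
  have hAcard : (A.card : ℝ) ≤ L1 ^ 2 := by
    have h1 : (A.card : ℝ) ≤ (2 * L + 1) + B.card := by
      rw [← hcA1]
      exact_mod_cast card_union_le _ _
    have h2 : 2 * F + 1 + L1 * u₂ ≤ L1 * u₂ ^ 3 := by
      have h3 : 1 ≤ u₂ ^ 2 := by nlinarith
      have h4 : 1 ≤ L1 * u₂ ^ 2 := by nlinarith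
      have h5 : L1 * u₂ ≤ L1 * u₂ ^ 2 := by
        apply mul_le_mul_of_nonneg_left _ (by linarith)
        nlinarith
      have h6 : L1 * u₂ ^ 3 = u₂ * (L1 * u₂ ^ 2) := by ring
      rw [h6]
      nlinarith
    have h7 : L1 * u₂ ^ 3 ≤ L1 * L1 := by gcongr
    have h8 : L1 ^ 2 = L1 * L1 := by ring
    rw [h8]
    linarith
  have hAb : ∀ a ∈ A, |(a : ℝ)| ≤ Real.exp (L1 ^ (D + 1)) := by
    intro a ha
    rw [hA, mem_union] at ha
    rcases ha with ha | ha
    · rw [mem_Icc] at ha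
      have h1 : |(a : ℝ)| ≤ L := by
        rw [abs_le]
        constructor
        · have : ((-(L : ℤ) : ℤ) : ℝ) ≤ a := by exact_mod_cast ha.1
          push_cast at this
          linarith
        · have : (a : ℝ) ≤ ((L : ℤ) : ℝ) := by exact_mod_cast ha.2
          push_cast at this
          linarith
      have h2 : (L : ℝ) ≤ L1 ^ 2 := by
        have h3 : F ≤ L1 * u₂ ^ 3 := by
          refine hF2.trans ?_
          have h4 : 0 ≤ L1 * u₂ ^ 2 := by positivity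
          have h6 : L1 * u₂ ^ 3 = u₂ * (L1 * u₂ ^ 2) := by ring
          rw [h6]
          nlinarith
        have h7 : L1 * u₂ ^ 3 ≤ L1 * L1 := by gcongr
        have h8 : L1 ^ 2 = L1 * L1 := by ring
        rw [h8]
        linarith
      have h3 : L1 ^ 2 ≤ Real.exp L1 := by
        have h4 := Real.pow_div_factorial_le_exp L1 (by linarith) 3
        have h5 : (Nat.factorial 3 : ℝ) = 6 := by norm_num [Nat.factorial]
        rw [h5] at h4
        refine le_trans ?_ h4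
        rw [le_div_iff₀ (by norm_num)]
        have : 0 ≤ L1 ^ 2 := by positivity
        nlinarith
      have h4 : Real.exp L1 ≤ Real.exp (L1 ^ (D + 1)) := by
        apply Real.exp_le_exp.2
        calc L1 = L1 ^ 1 := (pow_one _).symm
          _ ≤ L1 ^ (D + 1) := pow_le_pow_right₀ (by linarith) (by omega)
      linarith
    · exact hBb a ha
  have hA0 : (((A.filter (fun a => ∀ p : ℕ, p.Prime → (p : ℝ) ≤ y →
      WW y < Real.log p → ¬ (p : ℤ) ∣ a)).card : ℕ) : ℝ) ≤ c₀ * (L1 * (u₂ * u₄ / u₃)) := by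
    have h1 : (A.filter (fun a => ∀ p : ℕ, p.Prime → (p : ℝ) ≤ y →
        WW y < Real.log p → ¬ (p : ℤ) ∣ a)) ⊆
        (((NM y L).image (fun m : ℕ => (m : ℤ))) ∪ ((NM y L).image (fun m : ℕ => -(m : ℤ)))) ∪
          ({0} ∪ B.filter (fun a => ∀ p : ℕ, p.Prime → (p : ℝ) ≤ y →
            WW y < Real.log p → ¬ (p : ℤ) ∣ a)) := by
      intro a ha
      rw [mem_filter, hA, mem_union, mem_Icc] at ha
      obtain ⟨ha1, ha2⟩ := ha
      rw [mem_union, mem_union, mem_union, mem_image, mem_image, mem_singleton]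
      rcases ha1 with ha1 | ha1
      · by_cases h0 : a = 0
        · right; left; exact h0
        · left
          have hN : a.natAbs ∈ NM y L := by
            rw [NM, mem_filter, mem_Icc]
            refine ⟨⟨by omega, by omega⟩, fun p hp hpa => ?_⟩
            by_contra hcon
            push Not at hcon
            exact ha2 p hp hcon.1 hcon.2 (Int.natCast_dvd.2 hpa)
          rcases le_total 0 a with h | h
          · left; exact ⟨a.natAbs, hN, by omega⟩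
          · right; exact ⟨a.natAbs, hN, by omega⟩
      · right; right; exact mem_filter.2 ⟨ha1, ha2⟩
    have h2 : (A.filter (fun a => ∀ p : ℕ, p.Prime → (p : ℝ) ≤ y →
        WW y < Real.log p → ¬ (p : ℤ) ∣ a)).card ≤
        ((NM y L).card + (NM y L).card) + (1 + (B.filter (fun a => ∀ p : ℕ, p.Prime → (p : ℝ) ≤ y →
            WW y < Real.log p → ¬ (p : ℤ) ∣ a)).card) := by
      refine (card_le_card h1).trans ((card_union_le _ _).trans ?_)
      have e1 := card_union_le ((NM y L).image (fun m : ℕ => (m : ℤ)))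
        ((NM y L).image (fun m : ℕ => -(m : ℤ)))
      have e2 : ((NM y L).image (fun m : ℕ => (m : ℤ))).card ≤ (NM y L).card := card_image_le
      have e3 : ((NM y L).image (fun m : ℕ => -(m : ℤ))).card ≤ (NM y L).card := card_image_le
      have e4 := card_union_le ({0} : Finset ℤ) (B.filter (fun a => ∀ p : ℕ, p.Prime → (p : ℝ) ≤ y →
            WW y < Real.log p → ¬ (p : ℤ) ∣ a))
      rw [card_singleton] at e4
      omega
    have h3 : (((A.filter (fun a => ∀ p : ℕ, p.Prime → (p : ℝ) ≤ y →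
        WW y < Real.log p → ¬ (p : ℤ) ∣ a)).card : ℕ) : ℝ) ≤
        ((NM y L).card + (NM y L).card) + (1 + (B.filter (fun a => ∀ p : ℕ, p.Prime → (p : ℝ) ≤ y →
            WW y < Real.log p → ¬ (p : ℤ) ∣ a)).card) := by exact_mod_cast h2
    have h4 : 1 ≤ c' * (L1 * (u₂ * u₄ / u₃)) := by
      have h5 : 2 / c' + 10 * |y₀| ≤ L1 / 10 := g7
      have h6 : 2 / c' ≤ L1 := by linarith
      have h7 : 2 / c' * 1 ≤ L1 * (u₂ * u₄ / u₃) := by
        apply mul_le_mul h6 hr2 (by norm_num) (by linarith)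
      calc (1 : ℝ) ≤ c' * (2 / c' * 1) := by field_simp; norm_num
        _ ≤ _ := by gcongr
    have h5 : 0 ≤ L1 * (u₂ * u₄ / u₃) := by positivity
    have h6 : 242 * (c' * (L1 * (u₂ * u₄ / u₃))) ≤ c₀ * (L1 * (u₂ * u₄ / u₃)) := by
      nlinarith
    linarith
  obtain ⟨n, hn1, hn2, hn3, hn4⟩ := heng X hX1 A hAcard hAb hA0 r z
  refine ⟨n, hn1, hn2, hn3, ?_, ?_⟩
  · intro j hj
    apply hn4
    rw [hA, mem_union, mem_Icc]
    left
    rw [abs_le] at hj
    have h1 : ⌊F⌋ = (L : ℤ) := (Int.natCast_floor_eq_floor hF0).symm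
    constructor
    · have h2 : -j ≤ ⌊F⌋ := Int.le_floor.2 (by push_cast; linarith [hj.1])
      linarith
    · have h2 : j ≤ ⌊F⌋ := Int.le_floor.2 hj.2
      linarith
  · intro a ha
    apply hn4
    rw [hA, mem_union]
    right
    exact ha



/-- the elements of a window without medium prime factor -/
theorem window (δ : ℝ) (hδ : 0 < δ) : ∃ C : ℝ, 0 < C ∧ ∃ X₀ : ℝ, ∀ X : ℝ, X₀ ≤ X → ∀ (t : ℤ) (U : ℕ),
    (Real.log X) ^ δ ≤ U → (U : ℝ) ≤ (Real.log X) ^ 2 →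
    (((Icc (t - U) (t + U)).filter (fun a : ℤ => ∀ p : ℕ, p.Prime → (p : ℝ) ≤ Real.log X / 10 →
      WW (Real.log X / 10) < Real.log p → ¬ (p : ℤ) ∣ a)).card : ℝ) ≤
      C * (U * (Real.log (Real.log (Real.log (Real.log X))) / Real.log (Real.log (Real.log X)))) := by
  obtain ⟨c₁, c₃, hc₁, _, hV⟩ := cz_bounds
  obtain ⟨c₂, hc₂, X₀, hfacts⟩ := facts (2 / δ + 10)
  refine ⟨10 / (c₁ * δ) + 1, by positivity, X₀, ?_⟩
  intro X hX t U hU1 hU2
  obtain ⟨hX0, g1, g2, g3, g4, g5, g6, g7, g8, g9, g10, g11, g12, g13, g14⟩ := hfacts X hX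
  set L1 := Real.log X with hL1
  set u₂ := Real.log L1 with hu₂
  set u₃ := Real.log u₂ with hu₃
  set u₄ := Real.log u₃ with hu₄
  set y := L1 / 10 with hy
  have hy0 : 0 < y := by rw [hy]; linarith
  have hu₃0 : 0 < u₃ := by linarith
  have hu₃2 : 2 ≤ u₃ := by linarith
  have hu₂0 : 0 < u₂ := by linarith
  have hu₄0 : 0 < u₄ := by linarith
  have hL10 : 0 < L1 := by linarith
  set ℓ₂ := Real.log (Real.log y) with hℓ₂
  set ℓ₃ := Real.log ℓ₂ with hℓ₃
  have hly0 : 0 < Real.log y := by linarith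
  have hly2 : Real.log y ≤ u₂ := Real.log_le_log hy0 (by rw [hy]; linarith)
  have hℓ₂1 : u₃ / 2 ≤ ℓ₂ := by
    have h1 := Real.log_le_log (by linarith) g11
    rw [Real.log_div hu₂0.ne' (by norm_num)] at h1
    have := Real.log_two_lt_d9
    have h2 : Real.log (Real.log L1) = u₃ := rfl
    linarith
  have hℓ₃2 : ℓ₃ ≤ u₄ := Real.log_le_log g12 g13
  have hWW : WW y = Real.log y * ℓ₃ / (10 * ℓ₂) := rfl
  have hWWu : WW y ≤ u₂ * u₄ / (5 * u₃) := by
    rw [hWW, div_le_div_iff₀ (by positivity) (by positivity)]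
    have h1 : Real.log y * ℓ₃ ≤ u₂ * u₄ := by
      rcases le_or_gt 0 ℓ₃ with h | h
      · exact mul_le_mul hly2 hℓ₃2 h hu₂0.le
      · have : Real.log y * ℓ₃ ≤ 0 := mul_nonpos_of_nonneg_of_nonpos hly0.le h.le
        have : 0 ≤ u₂ * u₄ := by positivity
        linarith
    have h2 : 5 * u₃ ≤ 10 * ℓ₂ := by linarith
    have h3 : 0 ≤ u₂ * u₄ := by positivity
    calc Real.log y * ℓ₃ * (5 * u₃) ≤ u₂ * u₄ * (5 * u₃) := by gcongr
      _ ≤ u₂ * u₄ * (10 * ℓ₂) := by gcongr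
  set v : ℕ := ⌊Real.exp (WW y)⌋₊ with hv
  have hWW10 : 10 ≤ WW y := by
    have : 0 < 2 / δ := by positivity
    linarith
  have hv2 : 2 ≤ v := by
    rw [hv, Nat.le_floor_iff (Real.exp_pos _).le]
    have := Real.add_one_le_exp (WW y)
    push_cast; linarith
  have hv0 : (0 : ℝ) < v := by exact_mod_cast (by omega : 0 < v)
  have hvle : (v : ℝ) ≤ Real.exp (WW y) := Nat.floor_le (Real.exp_pos _).le
  have hlv : Real.log v ≤ WW y := by
    rw [← Real.log_exp (WW y)]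
    exact Real.log_le_log hv0 hvle
  have hVpos := V_pos v
  have hVv : 1 / V v ≤ u₂ * u₄ / (5 * u₃) / c₁ := by
    have h1 := (hV v hv2).1
    rw [div_le_div_iff₀ hVpos hc₁]
    have h2 : V v * Real.log v ≤ V v * (u₂ * u₄ / (5 * u₃)) := by
      apply mul_le_mul_of_nonneg_left _ hVpos.le
      exact hlv.trans hWWu
    linarith
  -- the size of the window
  have hUL : Real.exp (δ * u₂) ≤ U := by
    refine le_trans (le_of_eq ?_) hU1
    rw [Real.rpow_def_of_pos hL10, mul_comm]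
  have hU0 : (0 : ℝ) < U := (Real.exp_pos _).trans_le hUL
  have hδu : 2 * u₃ ≤ δ * u₂ := by
    have h1 : 2 / δ * u₃ ≤ u₂ := by
      have h2 : 2 / δ * u₃ ≤ (2 / δ + 10) * u₃ := by gcongr; linarith
      exact h2.trans g6
    rw [div_mul_eq_mul_div, div_le_iff₀ hδ] at h1
    linarith
  have hlogU : δ * u₂ ≤ Real.log U := by
    rw [← Real.log_exp (δ * u₂)]
    exact Real.log_le_log (Real.exp_pos _) hUL
  set x : ℝ := (U : ℝ) ^ ((1 : ℝ) / 8) with hx
  have hU1' : (1 : ℝ) ≤ U := by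
    refine le_trans ?_ hUL
    exact Real.one_le_exp (by positivity)
  have hx1 : 1 ≤ x := Real.one_le_rpow hU1' (by norm_num)
  set R : ℕ := ⌊x⌋₊ with hR
  have hR1 : 1 ≤ R := Nat.floor_pos.mpr hx1
  have hRx : (R : ℝ) ≤ x := Nat.floor_le (by linarith)
  have hRx' : x < (R : ℝ) + 1 := Nat.lt_floor_add_one x
  have hlogR : δ * u₂ / 8 ≤ Real.log ((R : ℝ) + 1) := by
    have h1 : Real.log x = Real.log U / 8 := by
      rw [hx, Real.log_rpow hU0]; ring
    have h2 : Real.log x ≤ Real.log ((R : ℝ) + 1) := Real.log_le_log (by linarith) hRx'.le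
    linarith
  have hx4 : x ^ 4 = Real.sqrt U := by
    rw [hx, ← Real.rpow_natCast, ← Real.rpow_mul hU0.le, Real.sqrt_eq_rpow]
    norm_num
  have hxy : x ≤ y := by
    have h1 : x ^ 4 ≤ L1 := by
      rw [hx4]
      rw [Real.sqrt_le_left hL10.le]
      exact hU2
    have h2 : x ^ 4 ≤ y ^ 4 := by
      refine h1.trans ?_
      rw [hy]
      have h3 : (1000 : ℝ) ^ 3 ≤ (L1 / 10) ^ 3 := by gcongr; linarith
      have h4 : (L1 / 10) ^ 4 = (L1 / 10) ^ 3 * (L1 / 10) := by ring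
      rw [h4]
      nlinarith
    exact (pow_le_pow_iff_left₀ (by linarith) hy0.le (by norm_num)).1 h2
  have hsub : ((Icc (t - U) (t + U)).filter (fun a : ℤ => ∀ p : ℕ, p.Prime → (p : ℝ) ≤ y →
      WW y < Real.log p → ¬ (p : ℤ) ∣ a)) ⊆
      ((Icc (t - U) (t + U)).filter (fun a : ℤ => ∀ p : ℕ, p.Prime → v < p → p ≤ R →
      ¬ (p : ℤ) ∣ a)) := by
    intro a ha
    rw [mem_filter] at ha ⊢
    refine ⟨ha.1, fun p hp hvp hpR => ha.2 p hp ?_ ?_⟩
    · have : (p : ℝ) ≤ R := by exact_mod_cast hpR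
      linarith
    · have h1 : Real.exp (WW y) < p := by
        have h2 : Real.exp (WW y) < v + 1 := Nat.lt_floor_add_one _
        have h3 : (v : ℝ) + 1 ≤ p := by exact_mod_cast hvp
        linarith
      rw [← Real.log_exp (WW y)]
      exact Real.log_lt_log (Real.exp_pos _) h1
  have hrough := rough_int v R t U hR1
  have hcard : (((Icc (t - U) (t + U)).filter (fun a : ℤ => ∀ p : ℕ, p.Prime → (p : ℝ) ≤ y →
      WW y < Real.log p → ¬ (p : ℤ) ∣ a)).card : ℝ) ≤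
      (((Icc (t - U) (t + U)).filter (fun a : ℤ => ∀ p : ℕ, p.Prime → v < p → p ≤ R →
      ¬ (p : ℤ) ∣ a)).card : ℝ) := by exact_mod_cast card_le_card hsub
  refine hcard.trans (hrough.trans ?_)
  have h1 : 2 * (1 / V v) * (2 * U + 1) / Real.log ((R : ℝ) + 1) ≤
      2 * (u₂ * u₄ / (5 * u₃) / c₁) * (3 * U) / (δ * u₂ / 8) := by
    apply div_le_div₀ (by positivity) _ (by positivity) hlogR
    gcongr
    linarith
  have h2 : 2 * (u₂ * u₄ / (5 * u₃) / c₁) * (3 * U) / (δ * u₂ / 8) =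
      48 / 5 / (c₁ * δ) * (U * (u₄ / u₃)) := by
    field_simp
    ring
  have h3 : (R : ℝ) ^ 4 ≤ U * (u₄ / u₃) := by
    have h4 : (R : ℝ) ^ 4 ≤ Real.sqrt U := by
      rw [← hx4]
      gcongr
    refine h4.trans ?_
    have h5 : u₃ ≤ Real.sqrt U := by
      apply Real.le_sqrt_of_sq_le
      refine le_trans ?_ hUL
      have h6 : u₃ ≤ Real.exp u₃ := by
        have := Real.add_one_le_exp u₃
        linarith
      calc u₃ ^ 2 ≤ (Real.exp u₃) ^ 2 := by gcongr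
        _ = Real.exp (2 * u₃) := by
            rw [← Real.exp_nat_mul]
            norm_num
        _ ≤ Real.exp (δ * u₂) := Real.exp_le_exp.2 hδu
    have h6 : Real.sqrt U * Real.sqrt U = U := Real.mul_self_sqrt hU0.le
    rw [mul_div_assoc']
    rw [le_div_iff₀ hu₃0]
    have h7 : 0 ≤ Real.sqrt U := Real.sqrt_nonneg _
    calc Real.sqrt U * u₃ ≤ Real.sqrt U * Real.sqrt U := by gcongr
      _ = U * 1 := by rw [h6, mul_one]
      _ ≤ U * u₄ := by gcongr; linarith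
  have h4 : 0 ≤ (U : ℝ) * (u₄ / u₃) := by positivity
  have h5 : 48 / 5 / (c₁ * δ) * (U * (u₄ / u₃)) ≤ 10 / (c₁ * δ) * (U * (u₄ / u₃)) := by
    gcongr
    norm_num
  calc 2 * (1 / V v) * (2 * U + 1) / Real.log ((R : ℝ) + 1) + (R : ℝ) ^ 4
      ≤ 10 / (c₁ * δ) * (U * (u₄ / u₃)) + U * (u₄ / u₃) := by linarith
    _ = _ := by ring

/-- a record gap around `n`, and prime-free windows of total length `c log X log log X` around the `n + t` -/
theorem record_windows (D Q : ℕ) (hQ : 0 < Q) (δ : ℝ) (hδ : 0 < δ) : ∃ c : ℝ, 0 < c ∧ ∃ X₀ : ℝ,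
    ∀ X : ℝ, X₀ ≤ X → ∀ (T : Finset ℤ) (U : ℕ), (Real.log X) ^ δ ≤ U →
    (T.card : ℝ) * U ≤ c * (Real.log X * Real.log (Real.log X)) →
    (∀ t ∈ T, |(t : ℝ)| ≤ Real.exp ((Real.log X) ^ D)) →
    ∀ r z : ℤ, ∃ n : ℤ, (z : ℝ) + X / 4 < n ∧ (n : ℝ) ≤ z + X ∧
      (∀ q : ℕ, q.Prime → q ∣ Q → (q : ℤ) ∣ n - r) ∧
      (∀ j : ℤ, |(j : ℝ)| ≤ c * FF 1 X → ¬ Prime (n + j)) ∧
      ∀ t ∈ T, ∀ j : ℤ, |(j : ℝ)| ≤ U → ¬ Prime (n + t + j) := by
  obtain ⟨c₀, hc₀, X₁, hrec⟩ := record_plus2 (D + 1) Q hQ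
  obtain ⟨C, hC, X₂, hwin⟩ := window δ hδ
  obtain ⟨c₂, hc₂, X₃, hfacts⟩ := facts 10
  refine ⟨min c₀ (min (1 / 3) (c₀ / C)), by positivity, max X₁ (max X₂ X₃), ?_⟩
  intro X hX T U hU hTU hT r z
  set c := min c₀ (min (1 / 3) (c₀ / C)) with hcdef
  have hcc₀ : c ≤ c₀ := min_le_left _ _
  have hc3 : c ≤ 1 / 3 := (min_le_right _ _).trans (min_le_left _ _)
  have hcC : c ≤ c₀ / C := (min_le_right _ _).trans (min_le_right _ _)
  have hc0 : 0 < c := by rw [hcdef]; positivity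
  have hX1 : X₁ ≤ X := (le_max_left _ _).trans hX
  have hX' := (le_max_right _ _).trans hX
  have hX2 : X₂ ≤ X := (le_max_left _ _).trans hX'
  have hX3 : X₃ ≤ X := (le_max_right _ _).trans hX'
  obtain ⟨hX0, g1, g2, g3, g4, g5, g6, g7, g8, g9, g10, g11, g12, g13, g14⟩ := hfacts X hX3
  set L1 := Real.log X with hL1
  set u₂ := Real.log L1 with hu₂
  set u₃ := Real.log u₂ with hu₃
  set u₄ := Real.log u₃ with hu₄
  have hu₃0 : 0 < u₃ := by linarith
  have hu₂0 : 0 < u₂ := by linarith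
  have hu₄0 : 0 < u₄ := by linarith
  have hL10 : 0 < L1 := by linarith
  have hU1' : (1 : ℝ) ≤ U := by
    refine le_trans ?_ hU
    exact Real.one_le_rpow (by linarith) hδ.le
  set B : Finset ℤ := T.biUnion (fun t => Icc (t - U) (t + U)) with hB
  have hUX : T.Nonempty → (U : ℝ) ≤ L1 ^ 2 := by
    intro hne
    have h1 : (1 : ℝ) ≤ T.card := by exact_mod_cast hne.card_pos
    have h2 : (U : ℝ) ≤ T.card * U := by nlinarith
    have h3 : c * (L1 * u₂) ≤ 1 * (L1 * L1) := by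
      have h4 : u₂ ≤ L1 := by
        have h5 : u₂ ≤ u₂ ^ 3 := by nlinarith [sq_nonneg u₂]
        linarith
      gcongr
      linarith
    calc (U : ℝ) ≤ T.card * U := h2
      _ ≤ c * (L1 * u₂) := hTU
      _ ≤ 1 * (L1 * L1) := h3
      _ = L1 ^ 2 := by ring
  have hBcard : (B.card : ℝ) ≤ L1 * u₂ := by
    have h1 : B.card ≤ ∑ t ∈ T, (Icc (t - (U : ℤ)) (t + U)).card := card_biUnion_le
    have h2 : ∀ t ∈ T, (Icc (t - (U : ℤ)) (t + U)).card = 2 * U + 1 := by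
      intro t _
      rw [Int.card_Icc]
      omega
    rw [sum_congr rfl h2, sum_const, smul_eq_mul] at h1
    have h3 : (B.card : ℝ) ≤ T.card * (2 * U + 1) := by exact_mod_cast h1
    have h4 : (T.card : ℝ) * (2 * U + 1) ≤ 3 * (T.card * U) := by
      have : (0 : ℝ) ≤ T.card := Nat.cast_nonneg _
      nlinarith
    have h5 : 0 < L1 * u₂ := by positivity
    calc (B.card : ℝ) ≤ 3 * (T.card * U) := h3.trans h4
      _ ≤ 3 * (c * (L1 * u₂)) := by gcongr
      _ ≤ 3 * (1 / 3 * (L1 * u₂)) := by gcongr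
      _ = L1 * u₂ := by ring
  have hBfil : (((B.filter (fun a => ∀ p : ℕ, p.Prime → (p : ℝ) ≤ L1 / 10 →
      WW (L1 / 10) < Real.log p → ¬ (p : ℤ) ∣ a)).card : ℕ) : ℝ) ≤ c₀ * (L1 * (u₂ * u₄ / u₃)) := by
    rw [hB, filter_biUnion]
    have h1 : (T.biUnion (fun t => (Icc (t - (U : ℤ)) (t + U)).filter (fun a => ∀ p : ℕ, p.Prime →
        (p : ℝ) ≤ L1 / 10 → WW (L1 / 10) < Real.log p → ¬ (p : ℤ) ∣ a))).card ≤
        ∑ t ∈ T, ((Icc (t - (U : ℤ)) (t + U)).filter (fun a => ∀ p : ℕ, p.Prime →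
        (p : ℝ) ≤ L1 / 10 → WW (L1 / 10) < Real.log p → ¬ (p : ℤ) ∣ a)).card := card_biUnion_le
    have h2 : ((T.biUnion (fun t => (Icc (t - (U : ℤ)) (t + U)).filter (fun a => ∀ p : ℕ, p.Prime →
        (p : ℝ) ≤ L1 / 10 → WW (L1 / 10) < Real.log p → ¬ (p : ℤ) ∣ a))).card : ℝ) ≤
        ∑ t ∈ T, (((Icc (t - (U : ℤ)) (t + U)).filter (fun a => ∀ p : ℕ, p.Prime →
        (p : ℝ) ≤ L1 / 10 → WW (L1 / 10) < Real.log p → ¬ (p : ℤ) ∣ a)).card : ℝ) := by
      exact_mod_cast h1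
    refine h2.trans ?_
    have h3 : ∀ t ∈ T, (((Icc (t - (U : ℤ)) (t + U)).filter (fun a => ∀ p : ℕ, p.Prime →
        (p : ℝ) ≤ L1 / 10 → WW (L1 / 10) < Real.log p → ¬ (p : ℤ) ∣ a)).card : ℝ) ≤
        C * (U * (u₄ / u₃)) := fun t ht => hwin X hX2 t U hU (hUX ⟨t, ht⟩)
    refine (sum_le_sum h3).trans ?_
    rw [sum_const, nsmul_eq_mul]
    have h4 : 0 ≤ u₄ / u₃ := by positivity
    calc (T.card : ℝ) * (C * (U * (u₄ / u₃))) = C * (T.card * U) * (u₄ / u₃) := by ring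
      _ ≤ C * (c * (L1 * u₂)) * (u₄ / u₃) := by gcongr
      _ ≤ C * (c₀ / C * (L1 * u₂)) * (u₄ / u₃) := by gcongr
      _ = c₀ * (L1 * (u₂ * u₄ / u₃)) := by field_simp
  have hBb : ∀ a ∈ B, |(a : ℝ)| ≤ Real.exp (L1 ^ (D + 1 + 1)) := by
    intro a ha
    rw [hB, mem_biUnion] at ha
    obtain ⟨t, ht, ha⟩ := ha
    rw [mem_Icc] at ha
    have h1 := hT t ht
    have h2 := hUX ⟨t, ht⟩
    have h3 : |(a : ℝ)| ≤ |(t : ℝ)| + U := by
      have h4 : ((t : ℝ)) - U ≤ a := by exact_mod_cast ha.1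
      have h5 : (a : ℝ) ≤ t + U := by exact_mod_cast ha.2
      rw [abs_le]
      constructor
      · have := neg_abs_le (t : ℝ); linarith
      · have := le_abs_self (t : ℝ); linarith
    have h4 : L1 ^ 2 ≤ Real.exp L1 := by
      have h5 := Real.pow_div_factorial_le_exp L1 (by linarith) 3
      have h6 : (Nat.factorial 3 : ℝ) = 6 := by norm_num [Nat.factorial]
      rw [h6] at h5
      refine le_trans ?_ h5
      rw [le_div_iff₀ (by norm_num)]
      have : 0 ≤ L1 ^ 2 := by positivity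
      nlinarith
    have h5 : Real.exp L1 ≤ Real.exp (L1 ^ (D + 1)) := by
      apply Real.exp_le_exp.2
      calc L1 = L1 ^ 1 := (pow_one _).symm
        _ ≤ L1 ^ (D + 1) := pow_le_pow_right₀ (by linarith) (by omega)
    have h6 : Real.exp (L1 ^ D) ≤ Real.exp (L1 ^ (D + 1)) := by
      apply Real.exp_le_exp.2
      exact pow_le_pow_right₀ (by linarith) (by omega)
    have h7 : 2 * Real.exp (L1 ^ (D + 1)) ≤ Real.exp (L1 ^ (D + 1 + 1)) := by
      have h8 : (2 : ℝ) ≤ Real.exp 1 := by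
        have := Real.add_one_le_exp (1 : ℝ)
        linarith
      calc 2 * Real.exp (L1 ^ (D + 1)) ≤ Real.exp 1 * Real.exp (L1 ^ (D + 1)) := by gcongr
        _ = Real.exp (1 + L1 ^ (D + 1)) := (Real.exp_add _ _).symm
        _ ≤ Real.exp (L1 ^ (D + 1 + 1)) := by
            apply Real.exp_le_exp.2
            have h9 : 1 ≤ L1 ^ (D + 1) := one_le_pow₀ (by linarith)
            rw [pow_succ L1 (D + 1)]
            nlinarith
    linarith
  obtain ⟨n, hn1, hn2, hn3, hn4, hn5⟩ := hrec X hX1 B hBcard hBfil hBb r z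
  have hFF : 0 ≤ FF 1 X := by
    unfold FF
    rw [← hL1, ← hu₂, ← hu₃, ← hu₄]
    positivity
  refine ⟨n, hn1, hn2, hn3, fun j hj => hn4 j (hj.trans (by gcongr)), ?_⟩
  intro t ht j hj
  have h1 : n + t + j = n + (t + j) := by ring
  rw [h1]
  apply hn5
  rw [hB, mem_biUnion]
  refine ⟨t, ht, ?_⟩
  rw [mem_Icc]
  rw [abs_le] at hj
  have h2 : (-(U : ℤ)) ≤ j := by exact_mod_cast hj.1
  have h3 : j ≤ (U : ℤ) := by exact_mod_cast hj.2
  constructor <;> linarith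

end Pool.Agent.W5h1.PB
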